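import Pool.Agent.Lib.LU1_h90.TailIII

/-!
# The tail theorem
-/

set_option autoImplicit false

namespace Pool.Agent.LU1T

open AddMonoidAlgebra Polynomial Filter

variable {k : Type*} [Field k] {Λ : AddSubgroup ℝ} {p : ℕ} [hp : Fact p.Prime] [CharP k p]
variable {B : ℕ → Λ} {c : ℕ → k} {b : ℝ} {N D : ℕ} {ρ : Λ} {G : (AddMonoidAlgebra k Λ)[X]}
  {s₀ s : ℕ} {F R h E : (AddMonoidAlgebra k Λ)[X]} {I m : ℕ}

theorem Tail.false_of_neg (hΛ : Λ.FG) (hT : Tail B c b p N D ρ G s₀)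
    (hA : (ρ : ℝ) + D * b < 0) : False := by
  classical
  have hpcs := hT.pcs
  have hpp : (0 : ℝ) < p := by exact_mod_cast hp.out.pos
  have hp1 : (1 : ℝ) < p := by exact_mod_cast hp.out.one_lt
  obtain ⟨hpD, -⟩ := hT.dvd hΛ
  have hρ := hT.not_dvd hpD
  obtain ⟨χ, hχ⟩ := exists_chi (k := k) hΛ hρ
  have hD2 := hT.two_le
  have hD0 : (0 : ℝ) < D := by
    have : 0 < D := by omega
    exact_mod_cast this
  set A := (ρ : ℝ) + D * b with hAdef
  -- the first stage
  obtain ⟨s₁, hs₁, hs₁'⟩ := ((hpcs.eventually_mul (ε := A - p * A) (by nlinarith) D).and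
    (eventually_ge_atTop s₀)).exists
  obtain ⟨G', hG'⟩ := hT.stage hs₁'
  set V := (ρ : ℝ) + D * B s₁ with hV
  have hVneg : V < 0 := hT.neg s₁
  have hVA : A < V / p := by
    rw [lt_div_iff₀ hpp]; linarith
  -- the linear part
  set P := hasseDeriv 1 G' with hPdef
  have h1p : ¬ p ∣ 1 := fun h => hp.out.one_lt.ne' (Nat.dvd_one.1 h)
  have hP : ∀ ε > (0 : ℝ), ∀ᶠ t in atTop, Ge (A - b - ε) (P.eval (Ys B c t)) := by
    intro ε hε
    filter_upwards [hpcs.eventually_mul hε D, eventually_ge_atTop s₁] with t ht1 ht2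
    obtain ⟨R, h, E, hS⟩ := hG' t ht2
    have hbt := hpcs.lt t
    have h2 := hS.ge 1
    have h3 := hS.hge 1
    have h4 := hS.err 1
    rw [Nat.cast_one, one_mul] at h2 h3 h4
    rw [hPdef, ← taylor_coeff, hS.eq, Polynomial.coeff_add, Polynomial.coeff_add,
      Polynomial.coeff_sub, coeff_poly_pow_of_not_dvd h h1p, zero_sub]
    refine Ge.add (Ge.add (h2.mono ?_) (h3.mono ?_).neg) (h4.mono ?_)
    · linarith
    · linarith
    · linarith
  obtain ⟨a₁, μ₁, δ₁, hδ₁, hor, hlin⟩ := linear_part (p := p) hΛ hpcs hP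
  obtain ⟨sa, hsa⟩ := eventually_atTop.1 hlin
  obtain ⟨sb, hsb⟩ := eventually_atTop.1 (hpcs.eventually hδ₁)
  set s₂ := max s₁ (max sa sb) with hs₂
  have hs₂1 : s₁ ≤ s₂ := le_max_left _ _
  have hs₂a : sa ≤ s₂ := (le_max_left _ _).trans (le_max_right _ _)
  have hs₂b : sb ≤ s₂ := (le_max_right _ _).trans (le_max_right _ _)
  have hgap₂ := hsb s₂ hs₂b
  set H := dPol χ G' + Polynomial.C (dG χ (Ys B c s₂)) * P with hH
  obtain ⟨ε, hε, hε1, hε2, hε3⟩ : ∃ ε > (0 : ℝ), ε ≤ V / p - A ∧ ε ≤ -A ∧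
      ε ≤ δ₁ - (b - B s₂) := by
    refine ⟨min (V / p - A) (min (-A) (δ₁ - (b - B s₂))), ?_, min_le_left _ _,
      (min_le_right _ _).trans (min_le_left _ _), (min_le_right _ _).trans (min_le_right _ _)⟩
    refine lt_min (by linarith) (lt_min (by linarith) (by linarith))
  -- the main decomposition
  have hmain : ∀ t, s₂ ≤ t → ∃ R : (AddMonoidAlgebra k Λ)[X], (R.coeff D).coeff ρ ≠ 0 ∧
      (∀ l : ℕ, Ge ((ρ : ℝ) + D * B t - l * B t) (R.coeff l)) ∧
      ∀ l : ℕ, Ge (A - l * b + ε) ((hasseDeriv l H).eval (Ys B c t) - (dG χ (R.coeff l) -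
        (if l = 0 then AddMonoidAlgebra.single a₁ μ₁ else 0) *
          dG χ (Ys B c t - Ys B c s₂))) := by
    intro t hst
    obtain ⟨R, h, E, hS⟩ := hG' t (hs₂1.trans hst)
    refine ⟨R, hS.mem, hS.ge, fun l => ?_⟩
    have h1 : (hasseDeriv l H).eval (Ys B c t) =
        dG χ ((Polynomial.taylor (Ys B c t) G').coeff l) -
          (hasseDeriv l P).eval (Ys B c t) * dG χ (Ys B c t - Ys B c s₂) :=
      dG_taylor χ G' _ _ l
    have h2 : dG χ ((h ^ p).coeff l) = 0 := by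
      by_cases hl : p ∣ l
      · obtain ⟨m, rfl⟩ := hl
        have h3 := coeff_poly_pow (p := p) h 1 m
        rw [pow_one] at h3
        rw [h3, dG_pow_char]
      · rw [coeff_poly_pow_of_not_dvd h hl, dG_zero]
    have h3 : dG χ ((Polynomial.taylor (Ys B c t) G').coeff l) =
        dG χ (R.coeff l) - dG χ (h.coeff l) + dG χ (E.coeff l) := by
      rw [hS.eq, Polynomial.coeff_add, Polynomial.coeff_add, Polynomial.coeff_sub, dG_add, dG_add,
        dG_sub, h2]
      ring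
    have h4 : (hasseDeriv l H).eval (Ys B c t) - (dG χ (R.coeff l) -
        (if l = 0 then AddMonoidAlgebra.single a₁ μ₁ else 0) * dG χ (Ys B c t - Ys B c s₂)) =
        -dG χ (h.coeff l) + dG χ (E.coeff l) - ((hasseDeriv l P).eval (Ys B c t) -
          if l = 0 then AddMonoidAlgebra.single a₁ μ₁ else 0) * dG χ (Ys B c t - Ys B c s₂) := by
      rw [h1, h3]; ring
    rw [h4]
    have hbt := hpcs.lt t
    have hlb : (l : ℝ) * B t ≤ l * b := mul_le_mul_of_nonneg_left hbt.le (Nat.cast_nonneg _)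
    refine Ge.sub (Ge.add (Ge.neg ?_) ?_) ?_
    · exact ((hS.hge l).mono (by linarith)).dG
    · exact ((hS.err l).mono (by linarith)).dG
    · refine ((hsa t (hs₂a.trans hst) l).mul (Ge.Ys_sub hpcs.mono c hst).dG).mono ?_
      linarith
  -- the rows `l ≥ 1`
  have hrow : ∀ l : ℕ, 1 ≤ l → ∀ g μ, Settled B c (hasseDeriv l H) g μ →
      A ≤ (g : ℝ) + l * b := by
    intro l hl g μ hg
    have h1 := hg.ge_of (v := A - l * b) fun ε' hε' => by
      filter_upwards [hpcs.eventually_mul hε' D, eventually_ge_atTop s₂] with t ht1 ht2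
      obtain ⟨R, -, hR1, hR2⟩ := hmain t ht2
      have h2 := hR2 l
      rw [if_neg (by omega : l ≠ 0), zero_mul, sub_zero] at h2
      have h3 := (hR1 l).dG (χ := χ)
      have hbt := hpcs.lt t
      have hlb : (l : ℝ) * B t ≤ l * b := mul_le_mul_of_nonneg_left hbt.le (Nat.cast_nonneg _)
      have h4 := (h2.mono (d := A - l * b - ε') (by linarith)).add
        (h3.mono (d := A - l * b - ε') (by linarith))
      rwa [sub_add_cancel] at h4
    linarith
  -- row `D`
  have hrowD : ∀ t, s₂ ≤ t → ((hasseDeriv D H).eval (Ys B c t)).coeff ρ ≠ 0 := by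
    intro t hst
    obtain ⟨R, hR0, hR1, hR2⟩ := hmain t hst
    have h2 := hR2 D
    rw [if_neg (by omega : D ≠ 0), zero_mul, sub_zero] at h2
    have h3 := h2.coeff_eq_zero (θ := ρ) (by linarith)
    rw [AddMonoidAlgebra.coeff_sub, Finsupp.sub_apply, sub_eq_zero, dG_coeff] at h3
    rw [h3]
    exact mul_ne_zero hχ hR0
  have hDne : hasseDeriv D H ≠ 0 := by
    intro h0
    apply hrowD s₂ le_rfl
    rw [h0, eval_zero]; rfl
  obtain ⟨gD, μD, hgD, -⟩ := kap (p := p) hΛ hpcs hDne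
  have hgDle : (gD : ℝ) ≤ ρ := by
    exact_mod_cast hgD.le_of_frequently ((eventually_atTop.2 ⟨s₂, hrowD⟩).frequently)
  have hgDge := hrow D (by omega) _ _ hgD
  obtain ⟨S, g, μ, hpow, hμ, hg, hmem, hexp⟩ := expand (p := p) hΛ hpcs H hrow
  have hDS : D ∈ S := hmem D (by omega) _ _ hgD (by linarith)
  obtain ⟨s₃, hexp, hs₃⟩ := (hexp.and (eventually_ge_atTop s₂)).exists
  -- row `0`
  have hlim : ∀ θ : Λ, (θ : ℝ) < A → ∀ᶠ t in atTop, (H.eval (Ys B c t) +
      AddMonoidAlgebra.single a₁ μ₁ * dG χ (Ys B c t - Ys B c s₂)).coeff θ = 0 := by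
    intro θ hθ
    filter_upwards [hpcs.eventually_mul (ε := A - θ) (by linarith) D,
      eventually_ge_atTop s₂] with t ht1 ht2
    obtain ⟨R, hR0, hR1, hR2⟩ := hmain t ht2
    have h2 := hR2 0
    have h3 := (hR1 0).dG (χ := χ)
    rw [if_pos rfl, hasseDeriv_zero', Nat.cast_zero, zero_mul, sub_zero] at h2
    rw [Nat.cast_zero, zero_mul, sub_zero] at h3
    have h4 : H.eval (Ys B c t) +
        AddMonoidAlgebra.single a₁ μ₁ * dG χ (Ys B c t - Ys B c s₂) =
        (H.eval (Ys B c t) - (dG χ (R.coeff 0) -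
          AddMonoidAlgebra.single a₁ μ₁ * dG χ (Ys B c t - Ys B c s₂))) + dG χ (R.coeff 0) := by
      ring
    rw [h4, AddMonoidAlgebra.coeff_add, Finsupp.add_apply, h2.coeff_eq_zero (by linarith),
      h3.coeff_eq_zero (by linarith), add_zero]
  rcases hor with h0 | h0
  · subst h0
    refine kap_core (p := p) hΛ hpcs (R := fun t => H.eval (Ys B c t)) (r := H.eval (Ys B c s₃))
      ⟨D, hDS⟩ hpow hμ hg (s := s₃) hexp fun θ hθ => ?_
    have h1 := hlim θ hθ
    simpa only [AddMonoidAlgebra.single_zero, zero_mul, add_zero] using h1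
  · refine kap_core' (p := p) hΛ hpcs (R := fun t => H.eval (Ys B c t) +
        AddMonoidAlgebra.single a₁ μ₁ * dG χ (Ys B c t - Ys B c s₂))
      (r := H.eval (Ys B c s₃) +
        AddMonoidAlgebra.single a₁ μ₁ * dG χ (Ys B c s₃ - Ys B c s₂))
      hpow hμ hg h0 (fun j => μ₁ * (((χ (B j) : ℤ) : k) * c j)) hDS hD2 (s := s₃) ?_ hlim
    intro t hst
    have h1 : ∑ j ∈ Finset.Ico s₃ t, AddMonoidAlgebra.single (a₁ + B j)
        (μ₁ * (((χ (B j) : ℤ) : k) * c j)) =
        AddMonoidAlgebra.single a₁ μ₁ * dG χ (Ys B c t - Ys B c s₃) := by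
      rw [Ys_sub B c hst, dG_sum, Finset.mul_sum]
      refine Finset.sum_congr rfl fun j _ => ?_
      rw [dG_single, AddMonoidAlgebra.single_mul_single]
    have h2 : dG χ (Ys B c t - Ys B c s₃) =
        dG χ (Ys B c t - Ys B c s₂) - dG χ (Ys B c s₃ - Ys B c s₂) := by
      rw [← dG_sub]; congr 1; ring
    rw [h1, h2]
    have h3 := hexp t hst
    convert h3 using 1
    ring

/-- **The tail theorem.** -/
theorem Tail.false (hΛ : Λ.FG) (hT : Tail B c b p N D ρ G s₀) : False := by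
  rcases lt_trichotomy ((ρ : ℝ) + D * b) 0 with h | h | h
  · exact hT.false_of_neg hΛ h
  · exact hT.false_of_zero hΛ h
  · obtain ⟨s, hs⟩ := (hT.pcs.eventually_mul h D).exists
    have := hT.neg s
    linarith

end Pool.Agent.LU1T
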