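import Pool.Agent.Lib.LU1_h15.Defs
import Pool.Agent.Lib.LU1_h90.Tail

/-!
# Transfer from exponents in a subgroup to real exponents
-/

set_option autoImplicit false

namespace Pool.Agent.LU1T

open AddMonoidAlgebra Polynomial Filter
open Pool.Agent.LU1 (Lau mon cf co SuppIn Vis Ysum IsLD All)

universe u

variable {k : Type u} [Field k] {Γ : AddSubgroup ℝ}

/-- The inclusion `k[Γ] → k[ℝ]`. -/
noncomputable def incl (k : Type u) [Field k] (Γ : AddSubgroup ℝ) :
    AddMonoidAlgebra k Γ →+* AddMonoidAlgebra k ℝ :=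
  AddMonoidAlgebra.mapDomainRingHom k Γ.subtype

theorem incl_single (γ : Γ) (x : k) : incl k Γ (AddMonoidAlgebra.single γ x) = mon (γ : ℝ) x :=
  AddMonoidAlgebra.mapDomain_single

theorem incl_injective : Function.Injective (incl k Γ) :=
  AddMonoidAlgebra.mapDomain_injective Subtype.val_injective

theorem cf_incl (a : AddMonoidAlgebra k Γ) (γ : Γ) : cf (incl k Γ a) (γ : ℝ) = a.coeff γ :=
  Finsupp.mapDomain_apply Subtype.val_injective a.coeff γ

theorem mem_of_cf_incl {a : AddMonoidAlgebra k Γ} {γ : ℝ} (h : cf (incl k Γ a) γ ≠ 0) : γ ∈ Γ := by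
  by_contra hcon
  refine h (Finsupp.mapDomain_of_notMem_range (f := (Subtype.val : Γ → ℝ)) a.coeff γ ?_)
  rintro ⟨δ, rfl⟩
  exact hcon δ.2

theorem exists_incl {a : Lau k} (h : ∀ γ, cf a γ ≠ 0 → γ ∈ Γ) : ∃ a', incl k Γ a' = a := by
  classical
  refine ⟨∑ γ ∈ a.coeff.support.attach,
    AddMonoidAlgebra.single (⟨γ.1, h γ.1 (Finsupp.mem_support_iff.1 γ.2)⟩ : Γ) (a.coeff γ.1), ?_⟩
  rw [map_sum]
  conv_rhs => rw [← AddMonoidAlgebra.sum_coeff_single a, Finsupp.sum, ← Finset.sum_attach]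
  refine Finset.sum_congr rfl fun γ _ => ?_
  rw [incl_single]
  rfl

theorem exists_map {P : (Lau k)[X]} (h : SuppIn Γ P) :
    ∃ P' : (AddMonoidAlgebra k Γ)[X], P'.map (incl k Γ) = P := by
  rw [← Polynomial.mem_lifts, Polynomial.lifts_iff_coeff_lifts]
  intro n
  obtain ⟨a, ha⟩ := exists_incl (k := k) (Γ := Γ) (a := P.coeff n) fun γ hγ => h γ n hγ
  exact ⟨a, ha⟩

theorem map_inj {P Q : (AddMonoidAlgebra k Γ)[X]} :
    P.map (incl k Γ) = Q.map (incl k Γ) ↔ P = Q :=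
  (Polynomial.map_injective _ incl_injective).eq_iff

theorem co_map (P : (AddMonoidAlgebra k Γ)[X]) (γ : Γ) (l : ℕ) :
    co (P.map (incl k Γ)) (γ : ℝ) l = (P.coeff l).coeff γ := by
  unfold co
  rw [Polynomial.coeff_map, cf_incl]

theorem suppIn_map (P : (AddMonoidAlgebra k Γ)[X]) : SuppIn Γ (P.map (incl k Γ)) := by
  intro γ l h
  unfold co at h
  rw [Polynomial.coeff_map] at h
  exact mem_of_cf_incl h

theorem map_hasseDeriv (P : (AddMonoidAlgebra k Γ)[X]) (l : ℕ) :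
    (hasseDeriv l P).map (incl k Γ) = hasseDeriv l (P.map (incl k Γ)) := by
  ext1 i
  rw [Polynomial.coeff_map, hasseDeriv_coeff, hasseDeriv_coeff, map_mul, map_natCast,
    Polynomial.coeff_map]

theorem Ysum_eq (B : ℕ → Γ) (c : ℕ → k) (s : ℕ) :
    Ysum (fun i => (B i : ℝ)) c s = incl k Γ (Ys B c s) := by
  unfold Ysum Ys
  rw [map_sum]
  exact Finset.sum_congr rfl fun i _ => (incl_single _ _).symm

theorem eval_map_incl (P : (AddMonoidAlgebra k Γ)[X]) (x : AddMonoidAlgebra k Γ) :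
    (P.map (incl k Γ)).eval (incl k Γ x) = incl k Γ (P.eval x) := by
  rw [Polynomial.eval_map, Polynomial.eval₂_at_apply]

/-- Truncation. -/
noncomputable def trunc (N : ℕ) (F : (AddMonoidAlgebra k Γ)[X]) : (AddMonoidAlgebra k Γ)[X] :=
  ∑ i ∈ Finset.range (N + 1), Polynomial.monomial i (F.coeff i)

theorem trunc_coeff (N : ℕ) (F : (AddMonoidAlgebra k Γ)[X]) (i : ℕ) :
    (trunc N F).coeff i = if i ≤ N then F.coeff i else 0 := by
  classical
  unfold trunc
  rw [finsetSum_coeff]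
  simp only [Polynomial.coeff_monomial]
  rw [Finset.sum_ite_eq']
  simp only [Finset.mem_range, Nat.lt_succ_iff]

theorem trunc_natDegree (N : ℕ) (F : (AddMonoidAlgebra k Γ)[X]) : (trunc N F).natDegree ≤ N := by
  rw [natDegree_le_iff_coeff_eq_zero]
  intro i hi
  rw [trunc_coeff, if_neg (by omega)]

end Pool.Agent.LU1T
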