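import Pool.Agent.Lib.LU1_h90.TDer

/-!
# Derivations attached to a character of the exponents and a derivation of the coefficients
-/

set_option autoImplicit false

namespace Pool.Agent.LU1T

open AddMonoidAlgebra Polynomial Filter

variable {k : Type*} [Field k] {Λ : AddSubgroup ℝ}

/-- The operator `c x^θ ↦ (χ(θ) c + δ(c)) x^θ`. -/
noncomputable def dD (χ : Λ →+ ℤ) (δ : Derivation ℤ k k) (a : AddMonoidAlgebra k Λ) :
    AddMonoidAlgebra k Λ :=
  AddMonoidAlgebra.ofCoeff (Finsupp.onFinset a.coeff.support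
    (fun θ => ((χ θ : ℤ) : k) * a.coeff θ + δ (a.coeff θ))
    fun θ hθ => Finsupp.mem_support_iff.2 fun h => hθ (by rw [h, mul_zero, map_zero, add_zero]))

variable (χ : Λ →+ ℤ) (δ : Derivation ℤ k k)

theorem dD_coeff (a : AddMonoidAlgebra k Λ) (θ : Λ) :
    (dD χ δ a).coeff θ = ((χ θ : ℤ) : k) * a.coeff θ + δ (a.coeff θ) := rfl

theorem dD_add (a b : AddMonoidAlgebra k Λ) : dD χ δ (a + b) = dD χ δ a + dD χ δ b := by
  refine AddMonoidAlgebra.ext (Finsupp.ext fun θ => ?_)
  rw [AddMonoidAlgebra.coeff_add, Finsupp.add_apply, dD_coeff, dD_coeff, dD_coeff,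
    AddMonoidAlgebra.coeff_add, Finsupp.add_apply, mul_add, map_add]
  ring

theorem dD_zero : dD χ δ (0 : AddMonoidAlgebra k Λ) = 0 := by
  refine AddMonoidAlgebra.ext (Finsupp.ext fun θ => ?_)
  rw [dD_coeff]
  have h : (0 : AddMonoidAlgebra k Λ).coeff θ = 0 := rfl
  rw [h, mul_zero, map_zero, add_zero]

/-- `dD` as an additive homomorphism. -/
noncomputable def dDHom : AddMonoidAlgebra k Λ →+ AddMonoidAlgebra k Λ where
  toFun := dD χ δ
  map_zero' := dD_zero χ δ
  map_add' := dD_add χ δ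

theorem dD_sub (a b : AddMonoidAlgebra k Λ) : dD χ δ (a - b) = dD χ δ a - dD χ δ b :=
  map_sub (dDHom χ δ) a b

theorem dD_sum {ι : Type*} (s : Finset ι) (f : ι → AddMonoidAlgebra k Λ) :
    dD χ δ (∑ i ∈ s, f i) = ∑ i ∈ s, dD χ δ (f i) := map_sum (dDHom χ δ) f s

theorem dD_nsmul (n : ℕ) (a : AddMonoidAlgebra k Λ) : dD χ δ (n • a) = n • dD χ δ a :=
  map_nsmul (dDHom χ δ) n a

theorem dD_natCast_mul (n : ℕ) (a : AddMonoidAlgebra k Λ) :
    dD χ δ ((n : AddMonoidAlgebra k Λ) * a) = (n : AddMonoidAlgebra k Λ) * dD χ δ a := by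
  rw [← nsmul_eq_mul, dD_nsmul, nsmul_eq_mul]

theorem dD_single (θ : Λ) (x : k) :
    dD χ δ (AddMonoidAlgebra.single θ x) =
      AddMonoidAlgebra.single θ (((χ θ : ℤ) : k) * x + δ x) := by
  classical
  refine AddMonoidAlgebra.ext (Finsupp.ext fun η => ?_)
  rw [dD_coeff, AddMonoidAlgebra.coeff_single, AddMonoidAlgebra.coeff_single,
    Finsupp.single_apply, Finsupp.single_apply]
  by_cases h : θ = η
  · subst h; rw [if_pos rfl, if_pos rfl]
  · rw [if_neg h, if_neg h, mul_zero, map_zero, add_zero]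

theorem dD_mul (a b : AddMonoidAlgebra k Λ) :
    dD χ δ (a * b) = dD χ δ a * b + a * dD χ δ b := by
  classical
  obtain ⟨s, f, rfl⟩ : ∃ (s : Finset Λ) (f : Λ → k), a = ∑ θ ∈ s, AddMonoidAlgebra.single θ (f θ) :=
    ⟨_, _, sum_single a⟩
  obtain ⟨t, g, rfl⟩ : ∃ (s : Finset Λ) (f : Λ → k), b = ∑ θ ∈ s, AddMonoidAlgebra.single θ (f θ) :=
    ⟨_, _, sum_single b⟩
  rw [Finset.sum_mul_sum, dD_sum, dD_sum, dD_sum, Finset.sum_mul_sum, Finset.sum_mul_sum,
    ← Finset.sum_add_distrib]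
  refine Finset.sum_congr rfl fun θ _ => ?_
  rw [dD_sum, ← Finset.sum_add_distrib]
  refine Finset.sum_congr rfl fun η _ => ?_
  rw [AddMonoidAlgebra.single_mul_single, dD_single, dD_single, dD_single,
    AddMonoidAlgebra.single_mul_single, AddMonoidAlgebra.single_mul_single,
    ← AddMonoidAlgebra.single_add, map_add, Derivation.leibniz, smul_eq_mul, smul_eq_mul]
  congr 1
  push_cast
  ring

theorem dD_one : dD χ δ (1 : AddMonoidAlgebra k Λ) = 0 := by
  rw [AddMonoidAlgebra.one_def, dD_single, map_zero, Int.cast_zero, zero_mul,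
    Derivation.map_one_eq_zero, add_zero, AddMonoidAlgebra.single_zero]

theorem dD_pow (a : AddMonoidAlgebra k Λ) (n : ℕ) :
    dD χ δ (a ^ n) = (n : AddMonoidAlgebra k Λ) * a ^ (n - 1) * dD χ δ a := by
  induction n with
  | zero => rw [pow_zero, dD_one]; simp
  | succ n ih =>
    rw [pow_succ, dD_mul, ih, Nat.add_sub_cancel]
    rcases Nat.eq_zero_or_pos n with rfl | hn
    · simp
    · obtain ⟨m, rfl⟩ : ∃ m, n = m + 1 := ⟨n - 1, by omega⟩
      rw [Nat.add_sub_cancel]
      push_cast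
      ring

theorem dD_pow_char {p : ℕ} [Fact p.Prime] [CharP k p] (a : AddMonoidAlgebra k Λ) :
    dD χ δ (a ^ p) = 0 := by
  have := charP_ga (k := k) (Λ := Λ) (p := p)
  rw [dD_pow, CharP.cast_eq_zero, zero_mul, zero_mul]

/-- The operator on coefficients of polynomials. -/
noncomputable def dPolD (F : (AddMonoidAlgebra k Λ)[X]) : (AddMonoidAlgebra k Λ)[X] :=
  ∑ i ∈ Finset.range (F.natDegree + 1), Polynomial.monomial i (dD χ δ (F.coeff i))

theorem dPolD_coeff (F : (AddMonoidAlgebra k Λ)[X]) (i : ℕ) :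
    (dPolD χ δ F).coeff i = dD χ δ (F.coeff i) := by
  classical
  unfold dPolD
  rw [finsetSum_coeff]
  simp only [Polynomial.coeff_monomial]
  rw [Finset.sum_ite_eq']
  split_ifs with h
  · rfl
  · rw [coeff_eq_zero_of_natDegree_lt (by rw [Finset.mem_range] at h; omega), dD_zero]

/-- Product rule for evaluation. -/
theorem dD_eval (F : (AddMonoidAlgebra k Λ)[X]) (x : AddMonoidAlgebra k Λ) :
    dD χ δ (F.eval x) = (dPolD χ δ F).eval x + (derivative F).eval x * dD χ δ x := by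
  have hadd : ∀ F G : (AddMonoidAlgebra k Λ)[X],
      dPolD χ δ (F + G) = dPolD χ δ F + dPolD χ δ G := by
    intro F G
    ext1 i
    rw [Polynomial.coeff_add, dPolD_coeff, dPolD_coeff, dPolD_coeff, Polynomial.coeff_add, dD_add]
  induction F using Polynomial.induction_on' with
  | add F G hF hG =>
    rw [eval_add, dD_add, hF, hG, hadd, eval_add, derivative_add, eval_add]
    ring
  | monomial n a =>
    have h1 : dPolD χ δ (Polynomial.monomial n a) = Polynomial.monomial n (dD χ δ a) := by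
      ext1 i
      rw [dPolD_coeff, Polynomial.coeff_monomial, Polynomial.coeff_monomial]
      split_ifs
      · rfl
      · exact dD_zero χ δ
    rw [h1, derivative_monomial, eval_monomial, eval_monomial, eval_monomial, dD_mul, dD_pow]
    ring

theorem dPolD_hasseDeriv (F : (AddMonoidAlgebra k Λ)[X]) (l : ℕ) :
    hasseDeriv l (dPolD χ δ F) = dPolD χ δ (hasseDeriv l F) := by
  ext1 i
  rw [hasseDeriv_coeff, dPolD_coeff, dPolD_coeff, hasseDeriv_coeff, dD_natCast_mul]

/-- The key identity: derivation of the Taylor coefficients. -/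
theorem dD_taylor (G : (AddMonoidAlgebra k Λ)[X]) (x y : AddMonoidAlgebra k Λ) (l : ℕ) :
    (hasseDeriv l (dPolD χ δ G + Polynomial.C (dD χ δ y) * hasseDeriv 1 G)).eval x =
      dD χ δ ((Polynomial.taylor x G).coeff l) -
        (hasseDeriv l (hasseDeriv 1 G)).eval x * dD χ δ (x - y) := by
  have h1 : hasseDeriv l (Polynomial.C (dD χ δ y) * hasseDeriv 1 G) =
      Polynomial.C (dD χ δ y) * hasseDeriv l (hasseDeriv 1 G) := by
    rw [← Polynomial.smul_eq_C_mul, map_smul, Polynomial.smul_eq_C_mul]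
  rw [taylor_coeff, dD_eval, map_add, eval_add, dPolD_hasseDeriv, h1, derivative_hasseDeriv,
    dD_sub, eval_mul, eval_C]
  ring

variable {χ δ}

theorem Ge.dD {c : ℝ} {a : AddMonoidAlgebra k Λ} (h : Ge c a) : Ge c (dD χ δ a) := by
  intro θ hθ
  refine h θ fun h0 => hθ ?_
  rw [dD_coeff, h0, mul_zero, map_zero, add_zero]

end Pool.Agent.LU1T
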