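import Pool.Agent.Lib.LU1_h90.TailIII
import Pool.Agent.Lib.LU1_h90.TDerD

/-!
# The main argument for a stuck order divisible by `p`, with a general derivation
-/

set_option autoImplicit false

namespace Pool.Agent.LU1T

open AddMonoidAlgebra Polynomial Filter

variable {k : Type*} [Field k] {Λ : AddSubgroup ℝ}
variable {B : ℕ → Λ} {c : ℕ → k} {b : ℝ} {D : ℕ} {ρ : Λ}

theorem core3 (p : ℕ) [hp : Fact p.Prime] [CharP k p] (hΛ : Λ.FG) (hpcs : Pcs B c b)
    (χ : Λ →+ ℤ) (δ : Derivation ℤ k k) {G' : (AddMonoidAlgebra k Λ)[X]} (hD2 : 2 ≤ D) {A : ℝ}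
    (hA : A = (ρ : ℝ) + D * b) {ε₀ : ℝ} (hε₀ : 0 < ε₀) {s₁ : ℕ}
    {R h Z : ℕ → (AddMonoidAlgebra k Λ)[X]}
    (heq : ∀ t, s₁ ≤ t → Polynomial.taylor (Ys B c t) G' = R t + h t ^ p + Z t)
    (hR : ∀ t, s₁ ≤ t → ∀ l : ℕ, Ge ((ρ : ℝ) + D * B t - l * B t) ((R t).coeff l))
    (hZ : ∀ t, s₁ ≤ t → ∀ l : ℕ, Ge (A + ε₀ - l * B t) ((Z t).coeff l))
    (hfreq : ∃ᶠ t in atTop, (dD χ δ ((R t).coeff D)).coeff ρ ≠ 0) : False := by
  classical
  have hD0 : (0 : ℝ) < D := by
    have : 0 < D := by omega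
    exact_mod_cast this
  -- the linear part
  set P := hasseDeriv 1 G' with hPdef
  have h1p : ¬ p ∣ 1 := fun h => hp.out.one_lt.ne' (Nat.dvd_one.1 h)
  have hP : ∀ ε > (0 : ℝ), ∀ᶠ t in atTop, Ge (A - b - ε) (P.eval (Ys B c t)) := by
    intro ε hε
    filter_upwards [hpcs.eventually_mul hε D, eventually_ge_atTop s₁] with t ht1 ht2
    have hbt := hpcs.lt t
    have h2 := hR t ht2 1
    have h3 := hZ t ht2 1
    rw [Nat.cast_one, one_mul] at h2 h3
    rw [hPdef, ← taylor_coeff, heq t ht2, Polynomial.coeff_add, Polynomial.coeff_add,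
      coeff_poly_pow_of_not_dvd (h t) h1p, add_zero]
    refine Ge.add (h2.mono ?_) (h3.mono ?_)
    · linarith
    · linarith
  obtain ⟨a₁, μ₁, δ₁, hδ₁, hor, hlin⟩ := linear_part (p := p) hΛ hpcs hP
  obtain ⟨sa, hsa⟩ := eventually_atTop.1 hlin
  obtain ⟨sb, hsb⟩ := eventually_atTop.1 (hpcs.eventually hδ₁)
  set s₂ := max s₁ (max sa sb) with hs₂
  have hs₂1 : s₁ ≤ s₂ := le_max_left _ _
  have hs₂a : sa ≤ s₂ := (le_max_left _ _).trans (le_max_right _ _)
  have hs₂b : sb ≤ s₂ := (le_max_right _ _).trans (le_max_right _ _)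
  have hgap₂ := hsb s₂ hs₂b
  set H := dPolD χ δ G' + Polynomial.C (dD χ δ (Ys B c s₂)) * P with hH
  obtain ⟨ε, hε, hε1, hε3⟩ : ∃ ε > (0 : ℝ), ε ≤ ε₀ ∧ ε ≤ δ₁ - (b - B s₂) :=
    ⟨min ε₀ (δ₁ - (b - B s₂)), lt_min hε₀ (by linarith), min_le_left _ _, min_le_right _ _⟩
  -- the main decomposition
  have hmain : ∀ t, s₂ ≤ t → ∀ l : ℕ, Ge (A - l * b + ε) ((hasseDeriv l H).eval (Ys B c t) -
      (dD χ δ ((R t).coeff l) - (if l = 0 then AddMonoidAlgebra.single a₁ μ₁ else 0) *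
          dD χ δ (Ys B c t - Ys B c s₂))) := by
    intro t hst l
    have h1 : (hasseDeriv l H).eval (Ys B c t) =
        dD χ δ ((Polynomial.taylor (Ys B c t) G').coeff l) -
          (hasseDeriv l P).eval (Ys B c t) * dD χ δ (Ys B c t - Ys B c s₂) :=
      dD_taylor χ δ G' _ _ l
    have h2 : dD χ δ ((h t ^ p).coeff l) = 0 := by
      by_cases hl : p ∣ l
      · obtain ⟨m, rfl⟩ := hl
        have h3 := coeff_poly_pow (p := p) (h t) 1 m
        rw [pow_one] at h3
        rw [h3, dD_pow_char]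
      · rw [coeff_poly_pow_of_not_dvd (h t) hl, dD_zero]
    have h3 : dD χ δ ((Polynomial.taylor (Ys B c t) G').coeff l) =
        dD χ δ ((R t).coeff l) + dD χ δ ((Z t).coeff l) := by
      rw [heq t (hs₂1.trans hst), Polynomial.coeff_add, Polynomial.coeff_add, dD_add, dD_add, h2,
        add_zero]
    have h4 : (hasseDeriv l H).eval (Ys B c t) - (dD χ δ ((R t).coeff l) -
        (if l = 0 then AddMonoidAlgebra.single a₁ μ₁ else 0) *
          dD χ δ (Ys B c t - Ys B c s₂)) =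
        dD χ δ ((Z t).coeff l) - ((hasseDeriv l P).eval (Ys B c t) -
          if l = 0 then AddMonoidAlgebra.single a₁ μ₁ else 0) *
            dD χ δ (Ys B c t - Ys B c s₂) := by
      rw [h1, h3]; ring
    rw [h4]
    have hbt := hpcs.lt t
    have hlb : (l : ℝ) * B t ≤ l * b := mul_le_mul_of_nonneg_left hbt.le (Nat.cast_nonneg _)
    refine Ge.sub ?_ ?_
    · exact ((hZ t (hs₂1.trans hst) l).mono (by linarith)).dD
    · refine ((hsa t (hs₂a.trans hst) l).mul (Ge.Ys_sub hpcs.mono c hst).dD).mono ?_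
      linarith
  -- the rows `l ≥ 1`
  have hrow : ∀ l : ℕ, 1 ≤ l → ∀ g μ, Settled B c (hasseDeriv l H) g μ →
      A ≤ (g : ℝ) + l * b := by
    intro l hl g μ hg
    have h1 := hg.ge_of (v := A - l * b) fun ε' hε' => by
      filter_upwards [hpcs.eventually_mul hε' D, eventually_ge_atTop s₂] with t ht1 ht2
      have h2 := hmain t ht2 l
      rw [if_neg (by omega : l ≠ 0), zero_mul, sub_zero] at h2
      have h3 := (hR t (hs₂1.trans ht2) l).dD (χ := χ) (δ := δ)
      have hbt := hpcs.lt t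
      have hlb : (l : ℝ) * B t ≤ l * b := mul_le_mul_of_nonneg_left hbt.le (Nat.cast_nonneg _)
      have h4 := (h2.mono (d := A - l * b - ε') (by linarith)).add
        (h3.mono (d := A - l * b - ε') (by linarith))
      rwa [sub_add_cancel] at h4
    linarith
  -- row `D`
  have hrowD : ∃ᶠ t in atTop, ((hasseDeriv D H).eval (Ys B c t)).coeff ρ ≠ 0 := by
    refine (hfreq.and_eventually (eventually_ge_atTop s₂)).mono fun t ht => ?_
    obtain ⟨hR0, hst⟩ := ht
    have h2 := hmain t hst D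
    rw [if_neg (by omega : D ≠ 0), zero_mul, sub_zero] at h2
    have h3 := h2.coeff_eq_zero (θ := ρ) (by linarith)
    rw [AddMonoidAlgebra.coeff_sub, Finsupp.sub_apply, sub_eq_zero] at h3
    rw [h3]
    exact hR0
  have hDne : hasseDeriv D H ≠ 0 := by
    intro h0
    obtain ⟨t, ht⟩ := hrowD.exists
    apply ht
    rw [h0, eval_zero]; rfl
  obtain ⟨gD, μD, hgD, -⟩ := kap (p := p) hΛ hpcs hDne
  have hgDle : (gD : ℝ) ≤ ρ := by
    exact_mod_cast hgD.le_of_frequently hrowD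
  have hgDge := hrow D (by omega) _ _ hgD
  obtain ⟨S, g, μ, hpow, hμ, hg, hmem, hexp⟩ := expand (p := p) hΛ hpcs H hrow
  have hDS : D ∈ S := hmem D (by omega) _ _ hgD (by linarith)
  obtain ⟨s₃, hexp, hs₃⟩ := (hexp.and (eventually_ge_atTop s₂)).exists
  -- row `0`
  have hlim : ∀ θ : Λ, (θ : ℝ) < A → ∀ᶠ t in atTop, (H.eval (Ys B c t) +
      AddMonoidAlgebra.single a₁ μ₁ * dD χ δ (Ys B c t - Ys B c s₂)).coeff θ = 0 := by
    intro θ hθ
    filter_upwards [hpcs.eventually_mul (ε := A - θ) (by linarith) D,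
      eventually_ge_atTop s₂] with t ht1 ht2
    have h2 := hmain t ht2 0
    have h3 := (hR t (hs₂1.trans ht2) 0).dD (χ := χ) (δ := δ)
    rw [if_pos rfl, hasseDeriv_zero', Nat.cast_zero, zero_mul, sub_zero] at h2
    rw [Nat.cast_zero, zero_mul, sub_zero] at h3
    have h4 : H.eval (Ys B c t) +
        AddMonoidAlgebra.single a₁ μ₁ * dD χ δ (Ys B c t - Ys B c s₂) =
        (H.eval (Ys B c t) - (dD χ δ ((R t).coeff 0) -
          AddMonoidAlgebra.single a₁ μ₁ * dD χ δ (Ys B c t - Ys B c s₂))) +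
            dD χ δ ((R t).coeff 0) := by
      ring
    rw [h4, AddMonoidAlgebra.coeff_add, Finsupp.add_apply, h2.coeff_eq_zero (by linarith),
      h3.coeff_eq_zero (by linarith), add_zero]
  rcases hor with h0 | h0
  · subst h0
    refine kap_core (p := p) hΛ hpcs (R := fun t => H.eval (Ys B c t)) (r := H.eval (Ys B c s₃))
      ⟨D, hDS⟩ hpow hμ hg (s := s₃) hexp fun θ hθ => ?_
    have h1 := hlim θ hθ
    simpa only [AddMonoidAlgebra.single_zero, zero_mul, add_zero] using h1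
  · refine kap_core' (p := p) hΛ hpcs (R := fun t => H.eval (Ys B c t) +
        AddMonoidAlgebra.single a₁ μ₁ * dD χ δ (Ys B c t - Ys B c s₂))
      (r := H.eval (Ys B c s₃) +
        AddMonoidAlgebra.single a₁ μ₁ * dD χ δ (Ys B c s₃ - Ys B c s₂))
      hpow hμ hg h0 (fun j => μ₁ * (((χ (B j) : ℤ) : k) * c j + δ (c j))) hDS hD2 (s := s₃)
      ?_ hlim
    intro t hst
    have h1 : ∑ j ∈ Finset.Ico s₃ t, AddMonoidAlgebra.single (a₁ + B j)
        (μ₁ * (((χ (B j) : ℤ) : k) * c j + δ (c j))) =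
        AddMonoidAlgebra.single a₁ μ₁ * dD χ δ (Ys B c t - Ys B c s₃) := by
      rw [Ys_sub B c hst, dD_sum, Finset.mul_sum]
      refine Finset.sum_congr rfl fun j _ => ?_
      rw [dD_single, AddMonoidAlgebra.single_mul_single]
    have h2 : dD χ δ (Ys B c t - Ys B c s₃) =
        dD χ δ (Ys B c t - Ys B c s₂) - dD χ δ (Ys B c s₃ - Ys B c s₂) := by
      rw [← dD_sub]; congr 1; ring
    rw [h1, h2]
    have h3 := hexp t hst
    convert h3 using 1
    ring

end Pool.Agent.LU1T
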