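import Pool.Agent.Lib.LU1_h90.Core3

/-!
# The tail theorem for purely inseparable ascents, arbitrary coefficient field
-/

set_option autoImplicit false

namespace Pool.Agent.LU1T

open AddMonoidAlgebra Polynomial Filter

variable {k : Type*} [Field k] {Λ : AddSubgroup ℝ}
variable {B : ℕ → Λ} {c : ℕ → k} {b : ℝ} {D : ℕ} {ρ : Λ}

/-- **Tail theorem, purely inseparable version.** `G (Y_t + T) = R_t + h_t ^ p`, the monomials of
`R_t` have at least the value of `x^ρ T^D`, `D ≥ 2`, and this monomial of `R_t` is not a `p`-th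
power. The field `k` has finitely many derivations whose common kernel is `k^p`. -/
theorem pi_tail (p : ℕ) [hp : Fact p.Prime] [CharP k p] (hΛ : Λ.FG) (hpcs : Pcs B c b)
    {ι : Type*} [Finite ι] (δ : ι → Derivation ℤ k k)
    (hδ : ∀ x, (∀ i, δ i x = 0) → ∃ y, x = y ^ p)
    {G : (AddMonoidAlgebra k Λ)[X]} (hD2 : 2 ≤ D) {s₀ : ℕ} {R h : ℕ → (AddMonoidAlgebra k Λ)[X]}
    (heq : ∀ t, s₀ ≤ t → Polynomial.taylor (Ys B c t) G = R t + h t ^ p)
    (hR : ∀ t, s₀ ≤ t → ∀ l : ℕ, Ge ((ρ : ℝ) + D * B t - l * B t) ((R t).coeff l))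
    (hmem : ∀ t, s₀ ≤ t → ((R t).coeff D).coeff ρ ≠ 0)
    (hvis : ∀ t, s₀ ≤ t → ¬ (p ∣ D ∧ (∃ η, ρ = p • η) ∧ ∃ x, ((R t).coeff D).coeff ρ = x ^ p)) :
    False := by
  classical
  have hD0 : (0 : ℝ) < D := by
    have : 0 < D := by omega
    exact_mod_cast this
  have h1p : ¬ p ∣ 1 := fun h => hp.out.one_lt.ne' (Nat.dvd_one.1 h)
  by_cases hpD : p ∣ D
  · -- the order is divisible by `p`
    obtain ⟨χ, δ', hfreq⟩ : ∃ (χ : Λ →+ ℤ) (δ' : Derivation ℤ k k),
        ∃ᶠ t in atTop, (dD χ δ' ((R t).coeff D)).coeff ρ ≠ 0 := by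
      by_cases hρ : ∃ η, ρ = p • η
      · have h1 : ∀ᶠ t in atTop, ∃ i, δ i (((R t).coeff D).coeff ρ) ≠ 0 := by
          refine eventually_atTop.2 ⟨s₀, fun t ht => ?_⟩
          by_contra hcon
          push Not at hcon
          exact hvis t ht ⟨hpD, hρ, hδ _ hcon⟩
        obtain ⟨i, hi⟩ : ∃ i, ∃ᶠ t in atTop, δ i (((R t).coeff D).coeff ρ) ≠ 0 := by
          by_contra hcon
          push Not at hcon
          have h2 : ∀ᶠ t in atTop, ∀ i, δ i (((R t).coeff D).coeff ρ) = 0 :=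
            eventually_all.2 hcon
          obtain ⟨t, ⟨i, hi⟩, ht⟩ := (h1.and h2).exists
          exact hi (ht i)
        refine ⟨0, δ i, hi.mono fun t ht => ?_⟩
        rw [dD_coeff]
        simpa using ht
      · push Not at hρ
        obtain ⟨χ, hχ⟩ := exists_chi (k := k) hΛ hρ
        refine ⟨χ, 0, (eventually_atTop.2 ⟨s₀, fun t ht => ?_⟩).frequently⟩
        rw [dD_coeff]
        simpa using ⟨hχ, hmem t ht⟩
    refine core3 p hΛ hpcs χ δ' (G' := G) hD2 rfl one_pos (s₁ := s₀) (R := R) (h := h)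
      (Z := fun _ => 0) (fun t ht => by rw [add_zero]; exact heq t ht) hR
      (fun t ht l => ?_) hfreq
    rw [Polynomial.coeff_zero]
    exact Ge.zero _
  · -- the order is prime to `p`
    set Q := hasseDeriv 1 G with hQ
    have hQval : ∀ t, s₀ ≤ t → Q.eval (Ys B c t) = (R t).coeff 1 := by
      intro t ht
      rw [hQ, ← taylor_coeff, heq t ht, Polynomial.coeff_add,
        coeff_poly_pow_of_not_dvd (h t) h1p, add_zero]
    have hDk : (D : k) ≠ 0 := fun h0 => hpD ((CharP.cast_eq_zero_iff k p D).1 h0)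
    have hQD : ∀ t, s₀ ≤ t → ((hasseDeriv (D - 1) Q).eval (Ys B c t)).coeff ρ =
        (D : k) * ((R t).coeff D).coeff ρ := by
      intro t ht
      have h2 := congrArg (fun F : (AddMonoidAlgebra k Λ)[X] →ₗ[AddMonoidAlgebra k Λ] _ => F G)
        (hasseDeriv_comp (R := AddMonoidAlgebra k Λ) (D - 1) 1)
      simp only [LinearMap.comp_apply, LinearMap.smul_apply] at h2
      have h3 : D - 1 + 1 = D := by omega
      rw [h3, Nat.choose_symm (by omega : 1 ≤ D), Nat.choose_one_right] at h2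
      rw [hQ, h2, eval_smul, ← taylor_coeff, heq t ht, Polynomial.coeff_add,
        coeff_poly_pow_of_not_dvd (h t) hpD, add_zero, AddMonoidAlgebra.coeff_smul,
        Finsupp.smul_apply, nsmul_eq_mul]
    have hne1 : hasseDeriv (D - 1) Q ≠ 0 := by
      intro h0
      have h1 := hQD s₀ le_rfl
      rw [h0, eval_zero] at h1
      exact mul_ne_zero hDk (hmem s₀ le_rfl) h1.symm
    have hne : Q ≠ 0 := by
      intro h0
      rw [h0, map_zero] at hne1
      exact hne1 rfl
    obtain ⟨g, μ, hg, hst⟩ := kap (p := p) hΛ hpcs hne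
    obtain ⟨g', μ', hg', -⟩ := kap (p := p) hΛ hpcs hne1
    have h1 := hst (D - 1) (by omega) _ _ hg'
    have h2 : (g' : ℝ) ≤ ρ := by
      have : g' ≤ ρ := hg'.le_of_frequently
        ((eventually_atTop.2 ⟨s₀, fun t ht => by
          rw [hQD t ht]; exact mul_ne_zero hDk (hmem t ht)⟩).frequently)
      exact_mod_cast this
    have h3 := hg.ge_of (v := (ρ : ℝ) + D * b - b) fun ε hε => by
      filter_upwards [hpcs.eventually_mul hε D, eventually_ge_atTop s₀] with t ht1 ht2
      rw [hQval t ht2]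
      have h4 := hR t ht2 1
      have hbt := hpcs.lt t
      rw [Nat.cast_one, one_mul] at h4
      exact h4.mono (by linarith)
    rw [Nat.cast_sub (by omega : 1 ≤ D), Nat.cast_one] at h1
    linarith

end Pool.Agent.LU1T
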