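import Mathlib

/-!
# Laurent polynomials with real exponents: lower bounds of the support
-/

set_option autoImplicit false

namespace Pool.Agent.LU1T

open AddMonoidAlgebra

variable {k : Type*} [Field k] {Λ : AddSubgroup ℝ}

/-- All exponents of `a` are at least `c`. -/
def Ge (c : ℝ) (a : AddMonoidAlgebra k Λ) : Prop := ∀ θ : Λ, a.coeff θ ≠ 0 → c ≤ (θ : ℝ)

variable {c d : ℝ} {a b : AddMonoidAlgebra k Λ}

theorem Ge.mono (h : Ge c a) (hd : d ≤ c) : Ge d a := fun θ hθ => hd.trans (h θ hθ)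

theorem Ge.zero (c : ℝ) : Ge c (0 : AddMonoidAlgebra k Λ) := fun _ hθ => absurd rfl hθ

theorem Ge.coeff_eq_zero (h : Ge c a) {θ : Λ} (hθ : (θ : ℝ) < c) : a.coeff θ = 0 := by
  by_contra hne
  exact absurd (h θ hne) (not_le.2 hθ)

theorem Ge.add (ha : Ge c a) (hb : Ge c b) : Ge c (a + b) := by
  intro θ hθ
  by_contra hc
  push Not at hc
  apply hθ
  rw [AddMonoidAlgebra.coeff_add, Finsupp.add_apply, ha.coeff_eq_zero hc, hb.coeff_eq_zero hc,
    add_zero]

theorem Ge.neg (ha : Ge c a) : Ge c (-a) := by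
  intro θ hθ
  refine ha θ fun h => hθ ?_
  rw [AddMonoidAlgebra.coeff_neg, Finsupp.neg_apply, h, neg_zero]

theorem Ge.sub (ha : Ge c a) (hb : Ge c b) : Ge c (a - b) := by
  rw [sub_eq_add_neg]; exact ha.add hb.neg

theorem Ge.sum {ι : Type*} {s : Finset ι} {f : ι → AddMonoidAlgebra k Λ}
    (h : ∀ i ∈ s, Ge c (f i)) : Ge c (∑ i ∈ s, f i) := by
  classical
  induction s using Finset.induction_on with
  | empty => rw [Finset.sum_empty]; exact Ge.zero c
  | insert i s hi ih =>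
    rw [Finset.sum_insert hi]
    exact (h i (Finset.mem_insert_self i s)).add
      (ih fun j hj => h j (Finset.mem_insert_of_mem hj))

theorem Ge.single {θ : Λ} (h : c ≤ (θ : ℝ)) (x : k) : Ge c (AddMonoidAlgebra.single θ x) := by
  intro η hη
  rw [AddMonoidAlgebra.coeff_single] at hη
  by_cases h' : θ = η
  · rw [← h']; exact h
  · exact absurd (Finsupp.single_eq_of_ne (by exact fun h => h' h.symm)) hη

theorem Ge.mul (ha : Ge c a) (hb : Ge d b) : Ge (c + d) (a * b) := by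
  classical
  intro θ hθ
  have h1 := AddMonoidAlgebra.support_coeff_mul_subset a b (Finsupp.mem_support_iff.2 hθ)
  obtain ⟨x, hx, y, hy, rfl⟩ := Finset.mem_add.1 h1
  have h2 := ha x (Finsupp.mem_support_iff.1 hx)
  have h3 := hb y (Finsupp.mem_support_iff.1 hy)
  rw [AddSubgroup.coe_add]
  linarith

theorem Ge.one : Ge 0 (1 : AddMonoidAlgebra k Λ) := by
  rw [AddMonoidAlgebra.one_def]
  exact Ge.single (by simp) 1

theorem Ge.pow (ha : Ge c a) (n : ℕ) : Ge (n * c) (a ^ n) := by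
  induction n with
  | zero => simpa using Ge.one
  | succ n ih =>
    rw [pow_succ]
    have := ih.mul ha
    convert this using 1
    push_cast; ring

theorem Ge.smul (ha : Ge c a) (x : k) : Ge c (x • a) := by
  intro θ hθ
  refine ha θ fun h => hθ ?_
  rw [AddMonoidAlgebra.coeff_smul, Finsupp.smul_apply, h, smul_zero]

theorem Ge.nsmul (ha : Ge c a) (n : ℕ) : Ge c (n • a) := by
  induction n with
  | zero => rw [zero_smul]; exact Ge.zero c
  | succ n ih => rw [succ_nsmul]; exact ih.add ha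

theorem Ge.natCast_mul (ha : Ge c a) (n : ℕ) : Ge c ((n : AddMonoidAlgebra k Λ) * a) := by
  rw [← nsmul_eq_mul]; exact ha.nsmul n

/-- The leading (lowest) term of `a` is `μ x^g`, and the other exponents are at least `g + δ`. -/
def Lead (g : Λ) (μ : k) (δ : ℝ) (a : AddMonoidAlgebra k Λ) : Prop :=
  Ge ((g : ℝ) + δ) (a - AddMonoidAlgebra.single g μ)

theorem Lead.mono {g : Λ} {μ : k} {δ δ' : ℝ} (h : Lead g μ δ a) (h' : δ' ≤ δ) :
    Lead g μ δ' a := Ge.mono h (by linarith)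

theorem Lead.ge {g : Λ} {μ : k} {δ : ℝ} (h : Lead g μ δ a) (hδ : 0 ≤ δ) : Ge (g : ℝ) a := by
  have h1 := (Ge.mono (d := (g : ℝ)) h (by linarith)).add (Ge.single le_rfl μ)
  rwa [sub_add_cancel] at h1

theorem Lead.coeff {g : Λ} {μ : k} {δ : ℝ} (h : Lead g μ δ a) (hδ : 0 < δ) :
    a.coeff g = μ := by
  have h1 := Ge.coeff_eq_zero h (θ := g) (by linarith)
  rw [AddMonoidAlgebra.coeff_sub, Finsupp.sub_apply, AddMonoidAlgebra.coeff_single,
    Finsupp.single_eq_same, sub_eq_zero] at h1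
  exact h1

/-- Existence of the leading term. -/
theorem exists_lead (ha : a ≠ 0) : ∃ (g : Λ) (μ : k) (δ : ℝ), μ ≠ 0 ∧ 0 < δ ∧ Lead g μ δ a := by
  classical
  have hs : a.coeff.support.Nonempty := by
    rw [Finsupp.support_nonempty_iff]
    exact fun h => ha (AddMonoidAlgebra.coeff_eq_zero.1 h)
  set g := a.coeff.support.min' hs with hg
  have hgm : g ∈ a.coeff.support := Finset.min'_mem _ hs
  obtain ⟨δ, hδ, h⟩ : ∃ δ > (0 : ℝ), ∀ θ ∈ a.coeff.support, θ ≠ g → (g : ℝ) + δ ≤ θ := by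
    have h1 : ∀ s : Finset Λ, (∀ θ ∈ s, (g : ℝ) < θ) → ∃ δ > (0 : ℝ), ∀ θ ∈ s, (g : ℝ) + δ ≤ θ := by
      intro s
      induction s using Finset.induction_on with
      | empty => exact fun _ => ⟨1, one_pos, fun θ hθ => absurd hθ (Finset.notMem_empty θ)⟩
      | insert x s hx ih =>
        intro hs
        obtain ⟨δ, hδ, h⟩ := ih fun θ hθ => hs θ (Finset.mem_insert_of_mem hθ)
        have hgx := hs x (Finset.mem_insert_self x s)
        refine ⟨min δ ((x : ℝ) - g), lt_min hδ (by linarith), fun θ hθ => ?_⟩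
        rcases Finset.mem_insert.1 hθ with rfl | hθ
        · have := min_le_right δ ((θ : ℝ) - g); linarith
        · have := min_le_left δ ((x : ℝ) - g); have := h θ hθ; linarith
    obtain ⟨δ, hδ, h⟩ := h1 (a.coeff.support.erase g) fun θ hθ => by
      have h2 := Finset.mem_erase.1 hθ
      exact_mod_cast lt_of_le_of_ne (Finset.min'_le _ _ h2.2) (Ne.symm h2.1)
    exact ⟨δ, hδ, fun θ hθ hne => h θ (Finset.mem_erase.2 ⟨hne, hθ⟩)⟩
  refine ⟨g, a.coeff g, δ, Finsupp.mem_support_iff.1 hgm, hδ, fun θ hθ => ?_⟩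
  by_cases hθg : θ = g
  · subst hθg
    exfalso; apply hθ
    rw [AddMonoidAlgebra.coeff_sub, Finsupp.sub_apply, AddMonoidAlgebra.coeff_single,
      Finsupp.single_eq_same, sub_self]
  · refine h θ (Finsupp.mem_support_iff.2 fun h0 => hθ ?_) hθg
    rw [AddMonoidAlgebra.coeff_sub, Finsupp.sub_apply, AddMonoidAlgebra.coeff_single,
      Finsupp.single_eq_of_ne hθg, h0, sub_self]

/-- `a ^ (p ^ f)` of a sum of monomials. -/
theorem single_sum_pow {p : ℕ} [Fact p.Prime] [CharP k p] {ι : Type*} (s : Finset ι)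
    (B : ι → Λ) (c : ι → k) (f : ℕ) :
    (∑ j ∈ s, AddMonoidAlgebra.single (B j) (c j) : AddMonoidAlgebra k Λ) ^ p ^ f =
      ∑ j ∈ s, AddMonoidAlgebra.single ((p ^ f) • B j) (c j ^ p ^ f) := by
  have : CharP (AddMonoidAlgebra k Λ) p :=
    charP_of_injective_algebraMap (algebraMap k (AddMonoidAlgebra k Λ)).injective p
  rw [sum_pow_char_pow]
  exact Finset.sum_congr rfl fun j _ => AddMonoidAlgebra.single_pow _ _ _

end Pool.Agent.LU1T
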