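import Mathlib

/-!
# The chain lemma
-/

set_option autoImplicit false

namespace Pool.Agent.LU1T

/-- In a finitely generated subgroup of `ℝ` a nonzero element is not divisible by arbitrarily high
powers of `p`. -/
theorem bounded_div {Λ : AddSubgroup ℝ} (hΛ : Λ.FG) {p : ℕ} (hp : 2 ≤ p) {u : Λ} (hu : u ≠ 0) :
    ∃ N : ℕ, ∀ (M : ℕ) (v : Λ), (p ^ M) • v = u → M < N := by
  classical
  have h1 : Module.Finite ℤ Λ := Module.Finite.iff_addGroup_fg.2 ((AddGroup.fg_iff_addSubgroup_fg Λ).2 hΛ)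
  have h2 : Module.Free ℤ Λ := Module.free_of_finite_type_torsion_free'
  let b := Module.Free.chooseBasis ℤ Λ
  obtain ⟨i, hi⟩ : ∃ i, b.repr u i ≠ 0 := by
    by_contra hcon
    push Not at hcon
    exact hu (b.repr.map_eq_zero_iff.1 (Finsupp.ext hcon))
  refine ⟨(b.repr u i).natAbs + 1, fun M v hv => ?_⟩
  have h3 : b.repr u i = (p : ℤ) ^ M * b.repr v i := by
    rw [← hv, map_nsmul, Finsupp.smul_apply, nsmul_eq_mul]
    push_cast; ring
  have h4 : p ^ M ≤ (b.repr u i).natAbs := by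
    refine Nat.le_of_dvd (Int.natAbs_pos.2 hi) ?_
    rw [h3, Int.natAbs_mul, Int.natAbs_pow, Int.natAbs_natCast]
    exact Dvd.intro _ rfl
  have h5 : M < p ^ M := Nat.lt_pow_self (by omega)
  omega

/-- The chain lemma. -/
theorem chain {Λ : AddSubgroup ℝ} (hΛ : Λ.FG) {p : ℕ} (hp : 2 ≤ p) {B : ℕ → Λ}
    (hB : StrictMono B) {b w : ℝ} (hb : ∀ j, (B j : ℝ) < b) {S : Finset ℕ}
    (hS : ∀ l ∈ S, ∃ f, l = p ^ f) {g : ℕ → Λ} (hg : ∀ l ∈ S, (g l : ℝ) + l * b = w) {e : ℕ}
    (he : e ∈ S) {J : ℕ}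
    (h : ∀ j, J ≤ j → ∃ l ∈ S, l < e ∧ ∃ j', g l + l • B j' = g e + e • B j) : False := by
  classical
  obtain ⟨l₀, hl₀, hle, -⟩ := h J le_rfl
  set n := e - l₀ with hn
  have hn0 : 0 < n := by omega
  -- `n * b` belongs to `Λ`
  set q : Λ := g l₀ - g e with hq
  have hqb : (q : ℝ) = n * b := by
    have h1 := hg l₀ hl₀
    have h2 := hg e he
    rw [hq, AddSubgroup.coe_sub, hn, Nat.cast_sub hle.le]
    linarith
  set u : ℕ → Λ := fun j => q - n • B j with hu
  have hub : ∀ j, (u j : ℝ) = n * (b - B j) := by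
    intro j
    rw [hu]
    simp only [AddSubgroup.coe_sub, AddSubgroup.coe_nsmul, hqb, nsmul_eq_mul]
    ring
  have hn0' : (0 : ℝ) < n := by exact_mod_cast hn0
  have hupos : ∀ j, (0 : ℝ) < u j := fun j => by
    rw [hub]; exact mul_pos hn0' (by linarith [hb j])
  have hinj : Function.Injective u := by
    intro i j hij
    have h1 := congrArg (fun x : Λ => (x : ℝ)) hij
    simp only [hub] at h1
    have h2 := mul_left_cancel₀ hn0'.ne' h1
    exact hB.injective (Subtype.ext (by linarith))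
  -- predecessors
  have hpred : ∀ j, J ≤ j → ∃ m j', j' < j ∧ u j' = (p ^ m) • u j := by
    intro j hj
    obtain ⟨l, hl, hle', j', hj'⟩ := h j hj
    obtain ⟨f, rfl⟩ := hS l hl
    obtain ⟨f', rfl⟩ := hS e he
    have hff : f < f' := (Nat.pow_lt_pow_iff_right (by omega)).1 hle'
    refine ⟨f' - f, j', ?_, ?_⟩
    · -- compare values
      have h1 := congrArg (fun x : Λ => (x : ℝ)) hj'
      simp only [AddSubgroup.coe_add, AddSubgroup.coe_nsmul, nsmul_eq_mul] at h1
      have h2 := hg _ hl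
      have h3 := hg _ he
      have h4 : ((p ^ f : ℕ) : ℝ) * (b - B j') = ((p ^ f' : ℕ) : ℝ) * (b - B j) := by linarith
      by_contra hcon
      push Not at hcon
      have h5 : (B j : ℝ) ≤ B j' := by exact_mod_cast hB.monotone hcon
      have h6 : (0 : ℝ) < b - B j' := by linarith [hb j']
      have h7 : ((p ^ f : ℕ) : ℝ) < ((p ^ f' : ℕ) : ℝ) := by exact_mod_cast hle'
      have h8 : ((p ^ f : ℕ) : ℝ) * (b - B j') < ((p ^ f' : ℕ) : ℝ) * (b - B j) := by
        calc ((p ^ f : ℕ) : ℝ) * (b - B j') < ((p ^ f' : ℕ) : ℝ) * (b - B j') :=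
              mul_lt_mul_of_pos_right h7 h6
          _ ≤ ((p ^ f' : ℕ) : ℝ) * (b - B j) :=
              mul_le_mul_of_nonneg_left (by linarith) (by positivity)
      linarith
    · have h1 := congrArg (fun x : Λ => (x : ℝ)) hj'
      simp only [AddSubgroup.coe_add, AddSubgroup.coe_nsmul, nsmul_eq_mul] at h1
      have h2 := hg _ hl
      have h3 := hg _ he
      have h4 : ((p ^ f : ℕ) : ℝ) * (b - B j') = ((p ^ f' : ℕ) : ℝ) * (b - B j) := by linarith
      apply Subtype.ext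
      rw [AddSubgroup.coe_nsmul, nsmul_eq_mul, hub, hub]
      have hpf : ((p ^ f : ℕ) : ℝ) ≠ 0 := by
        have : 0 < p ^ f := Nat.pow_pos (by omega)
        exact_mod_cast this.ne'
      apply mul_left_cancel₀ hpf
      have h5 : ((p ^ f : ℕ) : ℝ) * ((p ^ (f' - f) : ℕ) : ℝ) = ((p ^ f' : ℕ) : ℝ) := by
        rw [← Nat.cast_mul, ← pow_add, Nat.add_sub_cancel' hff.le]
      calc ((p ^ f : ℕ) : ℝ) * (n * (b - B j')) = n * (((p ^ f : ℕ) : ℝ) * (b - B j')) := by ring
        _ = n * (((p ^ f' : ℕ) : ℝ) * (b - B j)) := by rw [h4]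
        _ = ((p ^ f : ℕ) : ℝ) * (((p ^ (f' - f) : ℕ) : ℝ) * (n * (b - B j))) := by
          rw [← h5]; ring
  have hchain : ∀ j, ∃ j₀ M, j₀ < J ∧ u j₀ = (p ^ M) • u j := by
    intro j
    induction j using Nat.strong_induction_on with
    | _ j ih =>
      by_cases hj : j < J
      · exact ⟨j, 0, hj, by rw [pow_zero, one_smul]⟩
      · obtain ⟨m, j', hj', hm⟩ := hpred j (by omega)
        obtain ⟨j₀, M, h0, h1⟩ := ih j' hj'
        exact ⟨j₀, M + m, h0, by rw [h1, hm, smul_smul, ← pow_add]⟩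
  -- finitely many values
  have hbd : ∀ j₀, ∃ N : ℕ, ∀ (M : ℕ) (v : Λ), (p ^ M) • v = u j₀ → M < N := fun j₀ =>
    bounded_div hΛ hp fun h0 => by
      have := hupos j₀
      rw [h0] at this
      simp at this
  choose N hN using hbd
  have hfin : (Set.range u).Finite := by
    refine Set.Finite.subset (Finset.finite_toSet ((Finset.range J).biUnion fun j₀ =>
      (Finset.range (N j₀)).biUnion fun M =>
        if h : ∃ v : Λ, (p ^ M) • v = u j₀ then {h.choose} else ∅)) ?_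
    rintro _ ⟨j, rfl⟩
    obtain ⟨j₀, M, h0, h1⟩ := hchain j
    rw [Finset.mem_coe, Finset.mem_biUnion]
    refine ⟨j₀, Finset.mem_range.2 h0, Finset.mem_biUnion.2 ⟨M,
      Finset.mem_range.2 (hN j₀ M _ h1.symm), ?_⟩⟩
    have hex : ∃ v : Λ, (p ^ M) • v = u j₀ := ⟨u j, h1.symm⟩
    rw [dif_pos hex, Finset.mem_singleton]
    have h2 : (p ^ M) • u j = (p ^ M) • hex.choose := by rw [← h1, hex.choose_spec]
    have h3 := congrArg (fun x : Λ => (x : ℝ)) h2
    simp only [AddSubgroup.coe_nsmul, nsmul_eq_mul] at h3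
    have hpM : ((p ^ M : ℕ) : ℝ) ≠ 0 := by
      have : 0 < p ^ M := Nat.pow_pos (by omega)
      exact_mod_cast this.ne'
    exact Subtype.ext (mul_left_cancel₀ hpM h3)
  exact Set.infinite_range_of_injective hinj hfin

end Pool.Agent.LU1T
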