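import Pool.Agent.Lib.LU1_h90.TailW

/-!
# The derivation attached to a character of the group of exponents
-/

set_option autoImplicit false

namespace Pool.Agent.LU1T

open AddMonoidAlgebra Polynomial Filter

variable {k : Type*} [Field k] {Λ : AddSubgroup ℝ}

/-- The operator `x^θ ↦ χ(θ) x^θ`. -/
noncomputable def dG (χ : Λ →+ ℤ) (a : AddMonoidAlgebra k Λ) : AddMonoidAlgebra k Λ :=
  AddMonoidAlgebra.ofCoeff (Finsupp.onFinset a.coeff.support (fun θ => ((χ θ : ℤ) : k) * a.coeff θ)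
    fun θ hθ => Finsupp.mem_support_iff.2 fun h => hθ (by rw [h, mul_zero]))

variable (χ : Λ →+ ℤ)

theorem dG_coeff (a : AddMonoidAlgebra k Λ) (θ : Λ) :
    (dG χ a).coeff θ = ((χ θ : ℤ) : k) * a.coeff θ := rfl

theorem dG_add (a b : AddMonoidAlgebra k Λ) : dG χ (a + b) = dG χ a + dG χ b := by
  refine AddMonoidAlgebra.ext (Finsupp.ext fun θ => ?_)
  rw [AddMonoidAlgebra.coeff_add, Finsupp.add_apply, dG_coeff, dG_coeff, dG_coeff,
    AddMonoidAlgebra.coeff_add, Finsupp.add_apply, mul_add]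

theorem dG_zero : dG χ (0 : AddMonoidAlgebra k Λ) = 0 := by
  refine AddMonoidAlgebra.ext (Finsupp.ext fun θ => ?_)
  rw [dG_coeff]
  exact mul_zero _

/-- `dG` as an additive homomorphism. -/
noncomputable def dGHom : AddMonoidAlgebra k Λ →+ AddMonoidAlgebra k Λ where
  toFun := dG χ
  map_zero' := dG_zero χ
  map_add' := dG_add χ

theorem dG_sub (a b : AddMonoidAlgebra k Λ) : dG χ (a - b) = dG χ a - dG χ b :=
  map_sub (dGHom χ) a b

theorem dG_sum {ι : Type*} (s : Finset ι) (f : ι → AddMonoidAlgebra k Λ) :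
    dG χ (∑ i ∈ s, f i) = ∑ i ∈ s, dG χ (f i) := map_sum (dGHom χ) f s

theorem dG_nsmul (n : ℕ) (a : AddMonoidAlgebra k Λ) : dG χ (n • a) = n • dG χ a :=
  map_nsmul (dGHom χ) n a

theorem dG_natCast_mul (n : ℕ) (a : AddMonoidAlgebra k Λ) :
    dG χ ((n : AddMonoidAlgebra k Λ) * a) = (n : AddMonoidAlgebra k Λ) * dG χ a := by
  rw [← nsmul_eq_mul, dG_nsmul, nsmul_eq_mul]

theorem dG_single (θ : Λ) (x : k) :
    dG χ (AddMonoidAlgebra.single θ x) = AddMonoidAlgebra.single θ (((χ θ : ℤ) : k) * x) := by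
  classical
  refine AddMonoidAlgebra.ext (Finsupp.ext fun η => ?_)
  rw [dG_coeff, AddMonoidAlgebra.coeff_single, AddMonoidAlgebra.coeff_single,
    Finsupp.single_apply, Finsupp.single_apply]
  by_cases h : θ = η
  · subst h; rw [if_pos rfl, if_pos rfl]
  · rw [if_neg h, if_neg h, mul_zero]

theorem dG_mul (a b : AddMonoidAlgebra k Λ) : dG χ (a * b) = dG χ a * b + a * dG χ b := by
  classical
  obtain ⟨s, f, rfl⟩ : ∃ (s : Finset Λ) (f : Λ → k), a = ∑ θ ∈ s, AddMonoidAlgebra.single θ (f θ) :=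
    ⟨_, _, sum_single a⟩
  obtain ⟨t, g, rfl⟩ : ∃ (s : Finset Λ) (f : Λ → k), b = ∑ θ ∈ s, AddMonoidAlgebra.single θ (f θ) :=
    ⟨_, _, sum_single b⟩
  rw [Finset.sum_mul_sum, dG_sum, dG_sum, dG_sum, Finset.sum_mul_sum, Finset.sum_mul_sum,
    ← Finset.sum_add_distrib]
  refine Finset.sum_congr rfl fun θ _ => ?_
  rw [dG_sum, ← Finset.sum_add_distrib]
  refine Finset.sum_congr rfl fun η _ => ?_
  rw [AddMonoidAlgebra.single_mul_single, dG_single, dG_single, dG_single,
    AddMonoidAlgebra.single_mul_single, AddMonoidAlgebra.single_mul_single,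
    ← AddMonoidAlgebra.single_add, map_add]
  congr 1
  push_cast
  ring

theorem dG_one : dG χ (1 : AddMonoidAlgebra k Λ) = 0 := by
  rw [AddMonoidAlgebra.one_def, dG_single, map_zero, Int.cast_zero, zero_mul,
    AddMonoidAlgebra.single_zero]

theorem dG_pow (a : AddMonoidAlgebra k Λ) (n : ℕ) :
    dG χ (a ^ n) = (n : AddMonoidAlgebra k Λ) * a ^ (n - 1) * dG χ a := by
  induction n with
  | zero => rw [pow_zero, dG_one]; simp
  | succ n ih =>
    rw [pow_succ, dG_mul, ih, Nat.add_sub_cancel]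
    rcases Nat.eq_zero_or_pos n with rfl | hn
    · simp
    · obtain ⟨m, rfl⟩ : ∃ m, n = m + 1 := ⟨n - 1, by omega⟩
      rw [Nat.add_sub_cancel]
      push_cast
      ring

theorem dG_pow_char {p : ℕ} [Fact p.Prime] [CharP k p] (a : AddMonoidAlgebra k Λ) :
    dG χ (a ^ p) = 0 := by
  have := charP_ga (k := k) (Λ := Λ) (p := p)
  rw [dG_pow, CharP.cast_eq_zero, zero_mul, zero_mul]

/-- The operator on coefficients of polynomials. -/
noncomputable def dPol (F : (AddMonoidAlgebra k Λ)[X]) : (AddMonoidAlgebra k Λ)[X] :=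
  ∑ i ∈ Finset.range (F.natDegree + 1), Polynomial.monomial i (dG χ (F.coeff i))

theorem dPol_coeff (F : (AddMonoidAlgebra k Λ)[X]) (i : ℕ) :
    (dPol χ F).coeff i = dG χ (F.coeff i) := by
  classical
  unfold dPol
  rw [finsetSum_coeff]
  simp only [Polynomial.coeff_monomial]
  rw [Finset.sum_ite_eq']
  split_ifs with h
  · rfl
  · rw [coeff_eq_zero_of_natDegree_lt (by rw [Finset.mem_range] at h; omega), dG_zero]

/-- Product rule for evaluation. -/
theorem dG_eval (F : (AddMonoidAlgebra k Λ)[X]) (x : AddMonoidAlgebra k Λ) :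
    dG χ (F.eval x) = (dPol χ F).eval x + (derivative F).eval x * dG χ x := by
  have hadd : ∀ F G : (AddMonoidAlgebra k Λ)[X], dPol χ (F + G) = dPol χ F + dPol χ G := by
    intro F G
    ext1 i
    rw [Polynomial.coeff_add, dPol_coeff, dPol_coeff, dPol_coeff, Polynomial.coeff_add, dG_add]
  induction F using Polynomial.induction_on' with
  | add F G hF hG =>
    rw [eval_add, dG_add, hF, hG, hadd, eval_add, derivative_add, eval_add]
    ring
  | monomial n a =>
    have h1 : dPol χ (Polynomial.monomial n a) = Polynomial.monomial n (dG χ a) := by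
      ext1 i
      rw [dPol_coeff, Polynomial.coeff_monomial, Polynomial.coeff_monomial]
      split_ifs
      · rfl
      · exact dG_zero χ
    rw [h1, derivative_monomial, eval_monomial, eval_monomial, eval_monomial, dG_mul, dG_pow]
    ring

theorem dPol_hasseDeriv (F : (AddMonoidAlgebra k Λ)[X]) (l : ℕ) :
    hasseDeriv l (dPol χ F) = dPol χ (hasseDeriv l F) := by
  ext1 i
  rw [hasseDeriv_coeff, dPol_coeff, dPol_coeff, hasseDeriv_coeff, dG_natCast_mul]

theorem derivative_hasseDeriv (F : (AddMonoidAlgebra k Λ)[X]) (l : ℕ) :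
    derivative (hasseDeriv l F) = hasseDeriv l (hasseDeriv 1 F) := by
  have h1 := congrArg (fun G : (AddMonoidAlgebra k Λ)[X] →ₗ[AddMonoidAlgebra k Λ] _ => G F)
    (hasseDeriv_comp (R := AddMonoidAlgebra k Λ) 1 l)
  have h2 := congrArg (fun G : (AddMonoidAlgebra k Λ)[X] →ₗ[AddMonoidAlgebra k Λ] _ => G F)
    (hasseDeriv_comp (R := AddMonoidAlgebra k Λ) l 1)
  simp only [LinearMap.comp_apply, LinearMap.smul_apply] at h1 h2
  rw [← hasseDeriv_one', h1, h2, add_comm 1 l]
  congr 1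
  rw [Nat.choose_symm_add]

/-- The key identity: derivation of the Taylor coefficients. -/
theorem dG_taylor (G : (AddMonoidAlgebra k Λ)[X]) (x y : AddMonoidAlgebra k Λ) (l : ℕ) :
    (hasseDeriv l (dPol χ G + Polynomial.C (dG χ y) * hasseDeriv 1 G)).eval x =
      dG χ ((Polynomial.taylor x G).coeff l) -
        (hasseDeriv l (hasseDeriv 1 G)).eval x * dG χ (x - y) := by
  have h1 : hasseDeriv l (Polynomial.C (dG χ y) * hasseDeriv 1 G) =
      Polynomial.C (dG χ y) * hasseDeriv l (hasseDeriv 1 G) := by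
    rw [← Polynomial.smul_eq_C_mul, map_smul, Polynomial.smul_eq_C_mul]
  rw [taylor_coeff, dG_eval, map_add, eval_add, dPol_hasseDeriv, h1, derivative_hasseDeriv,
    dG_sub, eval_mul, eval_C]
  ring

variable {χ}

theorem Ge.dG {c : ℝ} {a : AddMonoidAlgebra k Λ} (h : Ge c a) : Ge c (dG χ a) := by
  intro θ hθ
  refine h θ fun h0 => hθ ?_
  rw [dG_coeff, h0, mul_zero]

/-- A character which does not vanish modulo `p` on a given element. -/
theorem exists_chi {p : ℕ} [CharP k p] (hΛ : Λ.FG) {ρ : Λ} (hρ : ∀ η : Λ, ρ ≠ p • η) :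
    ∃ χ : Λ →+ ℤ, ((χ ρ : ℤ) : k) ≠ 0 := by
  classical
  have h1 : Module.Finite ℤ Λ :=
    Module.Finite.iff_addGroup_fg.2 ((AddGroup.fg_iff_addSubgroup_fg Λ).2 hΛ)
  have h2 : Module.Free ℤ Λ := Module.free_of_finite_type_torsion_free'
  let b := Module.Free.chooseBasis ℤ Λ
  by_contra hcon
  push Not at hcon
  have h3 : ∀ i, ∃ z : ℤ, b.repr ρ i = p * z := by
    intro i
    have h4 := hcon (b.coord i).toAddMonoidHom
    have h5 : ((b.repr ρ i : ℤ) : k) = 0 := h4
    exact (CharP.intCast_eq_zero_iff k p _).1 h5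
  choose z hz using h3
  refine hρ (∑ i, z i • b i) ?_
  refine b.repr.injective (Finsupp.ext fun i => ?_)
  rw [hz, map_nsmul, Finsupp.smul_apply, map_sum, Finsupp.finsetSum_apply]
  rw [Finset.sum_eq_single i]
  · rw [map_smul, Finsupp.smul_apply, b.repr_self, Finsupp.single_eq_same]
    simp
  · intro j _ hj
    rw [map_smul, Finsupp.smul_apply, b.repr_self, Finsupp.single_eq_of_ne (Ne.symm hj)]
    simp
  · intro h; exact absurd (Finset.mem_univ i) h

end Pool.Agent.LU1T
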