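import Pool.Agent.Lib.LU1_h90.TBasic
import Pool.Agent.Lib.LU1_h90.TChain

/-!
# Values of polynomials at a pseudo-convergent sequence of Laurent polynomials
-/

set_option autoImplicit false

namespace Pool.Agent.LU1T

open AddMonoidAlgebra Polynomial Filter

variable {k : Type*} [Field k] {Λ : AddSubgroup ℝ}

/-- If all proper binomial coefficients `l choose i` vanish in `k` then `l` is a power of `p`. -/
theorem eq_pow_of_choose {p : ℕ} [hp : Fact p.Prime] [CharP k p] {l : ℕ} (hl : 0 < l)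
    (h : ∀ i, 0 < i → i < l → (l.choose i : k) = 0) : ∃ f, l = p ^ f := by
  obtain ⟨f, m, hm, rfl⟩ := Nat.exists_eq_pow_mul_and_not_dvd hl.ne' p hp.out.ne_one
  refine ⟨f, ?_⟩
  by_contra hne
  have hm0 : 0 < m := Nat.pos_of_ne_zero fun h0 => by simp [h0] at hl
  have hm1 : m ≠ 1 := fun h1 => hne (by rw [h1, mul_one])
  have hpf : 0 < p ^ f := Nat.pow_pos hp.out.pos
  have h1 := h (p ^ f) hpf (by nlinarith [Nat.two_le_iff m |>.2 ⟨hm0.ne', hm1⟩])
  have h2 : ((X + 1 : k[X]) ^ (p ^ f * m)).coeff (p ^ f) = ((p ^ f * m).choose (p ^ f) : k) :=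
    coeff_X_add_one_pow k _ _
  have h3 : (X + 1 : k[X]) ^ (p ^ f * m) = expand k (p ^ f) ((X + 1) ^ m) := by
    rw [pow_mul, add_pow_char_pow, one_pow, map_pow, map_add, expand_X, map_one]
  rw [h3] at h2
  have h4 := coeff_expand_mul hpf ((X + 1 : k[X]) ^ m) 1
  rw [one_mul] at h4
  rw [h4, coeff_X_add_one_pow, Nat.choose_one_right, h1] at h2
  exact hm ((CharP.cast_eq_zero_iff k p m).1 h2)

/-- The partial sums of the pseudo-convergent sequence. -/
noncomputable def Ys (B : ℕ → Λ) (c : ℕ → k) (s : ℕ) : AddMonoidAlgebra k Λ :=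
  ∑ j ∈ Finset.range s, AddMonoidAlgebra.single (B j) (c j)

theorem Ys_sub (B : ℕ → Λ) (c : ℕ → k) {s t : ℕ} (h : s ≤ t) :
    Ys B c t - Ys B c s = ∑ j ∈ Finset.Ico s t, AddMonoidAlgebra.single (B j) (c j) :=
  (Finset.sum_Ico_eq_sub _ h).symm

theorem Ge.Ys_sub {B : ℕ → Λ} (hB : StrictMono B) (c : ℕ → k) {s t : ℕ} (h : s ≤ t) :
    Ge (B s : ℝ) (Ys B c t - Ys B c s) := by
  rw [LU1T.Ys_sub B c h]
  refine Ge.sum fun j hj => Ge.single ?_ _
  exact_mod_cast hB.monotone (Finset.mem_Ico.1 hj).1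

/-- Taylor formula. -/
theorem eval_taylor (Q : (AddMonoidAlgebra k Λ)[X]) (x y : AddMonoidAlgebra k Λ) :
    Q.eval y = Q.eval x + ∑ l ∈ Finset.Icc 1 Q.natDegree, (hasseDeriv l Q).eval x * (y - x) ^ l := by
  have h1 : Q.eval y = (taylor x Q).eval (y - x) := by
    rw [taylor_eval, sub_add_cancel]
  rw [h1, eval_eq_sum_range, natDegree_taylor, Finset.sum_range_succ']
  rw [taylor_coeff_zero, pow_zero, mul_one, add_comm]
  congr 1
  refine Finset.sum_nbij' (fun l => l + 1) (fun l => l - 1) ?_ ?_ ?_ ?_ ?_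
  · intro l hl
    rw [Finset.mem_range] at hl
    rw [Finset.mem_Icc]; omega
  · intro l hl
    rw [Finset.mem_Icc] at hl
    rw [Finset.mem_range]; omega
  · intro l _; simp
  · intro l hl
    rw [Finset.mem_Icc] at hl
    omega
  · intro l _
    rw [taylor_coeff]

/-- The values `Q (Y s)` have eventually the leading term `μ x^g`, with a uniform gap. -/
def Settled (B : ℕ → Λ) (c : ℕ → k) (Q : (AddMonoidAlgebra k Λ)[X]) (g : Λ) (μ : k) : Prop :=
  μ ≠ 0 ∧ ∃ δ > (0 : ℝ), ∀ᶠ s in atTop, Lead g μ δ (Q.eval (Ys B c s))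

variable {B : ℕ → Λ} {c : ℕ → k} {Q : (AddMonoidAlgebra k Λ)[X]} {g g' : Λ} {μ μ' : k}

theorem Settled.unique (h : Settled B c Q g μ) (h' : Settled B c Q g' μ') : g = g' ∧ μ = μ' := by
  obtain ⟨hμ, δ, hδ, h⟩ := h
  obtain ⟨hμ', δ', hδ', h'⟩ := h'
  obtain ⟨s, hs, hs'⟩ := (h.and h').exists
  have h1 : g ≤ g' := by
    have := hs.ge hδ.le g' (by rw [hs'.coeff hδ']; exact hμ')
    exact_mod_cast this
  have h2 : g' ≤ g := by
    have := hs'.ge hδ'.le g (by rw [hs.coeff hδ]; exact hμ)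
    exact_mod_cast this
  have h3 := le_antisymm h1 h2
  subst h3
  exact ⟨rfl, by rw [← hs.coeff hδ, hs'.coeff hδ']⟩

theorem Settled.ne_zero (h : Settled B c Q g μ) : Q ≠ 0 := by
  rintro rfl
  obtain ⟨hμ, δ, hδ, h⟩ := h
  obtain ⟨s, hs⟩ := h.exists
  have := hs.coeff hδ
  rw [eval_zero] at this
  exact hμ this.symm

theorem Settled.nsmul (h : Settled B c Q g μ) {n : ℕ} (hn : (n : k) ≠ 0) :
    Settled B c (n • Q) g (n * μ) := by
  obtain ⟨hμ, δ, hδ, h⟩ := h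
  refine ⟨mul_ne_zero hn hμ, δ, hδ, h.mono fun s hs => ?_⟩
  unfold Lead at *
  have h1 : (n • Q).eval (Ys B c s) - AddMonoidAlgebra.single g ((n : k) * μ) =
      n • (Q.eval (Ys B c s) - AddMonoidAlgebra.single g μ) := by
    rw [smul_sub, eval_smul, AddMonoidAlgebra.smul_single, nsmul_eq_mul n μ]
  rw [h1]
  exact hs.nsmul n

/-- The gap can be chosen for finitely many polynomials. -/
theorem common_gap {ι : Type*} (I : Finset ι) (P : ι → ℝ → Prop)
    (hmono : ∀ i δ δ', P i δ → δ' ≤ δ → P i δ') (h : ∀ i ∈ I, ∃ δ > (0 : ℝ), P i δ) :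
    ∃ δ > (0 : ℝ), ∀ i ∈ I, P i δ := by
  classical
  induction I using Finset.induction_on with
  | empty => exact ⟨1, one_pos, fun i hi => absurd hi (Finset.notMem_empty i)⟩
  | insert x s hx ih =>
    obtain ⟨δ, hδ, h1⟩ := ih fun i hi => h i (Finset.mem_insert_of_mem hi)
    obtain ⟨δ', hδ', h2⟩ := h x (Finset.mem_insert_self x s)
    refine ⟨min δ δ', lt_min hδ hδ', fun i hi => ?_⟩
    rcases Finset.mem_insert.1 hi with rfl | hi
    · exact hmono _ _ _ h2 (min_le_right _ _)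
    · exact hmono _ _ _ (h1 i hi) (min_le_left _ _)

/-- A pseudo-convergent sequence of bounded breadth. -/
structure Pcs (B : ℕ → Λ) (c : ℕ → k) (b : ℝ) : Prop where
  mono : StrictMono B
  lt : ∀ j, (B j : ℝ) < b
  lim : ∀ ε > (0 : ℝ), ∃ j, b - ε < B j
  ne : ∀ j, c j ≠ 0

theorem Pcs.eventually {b : ℝ} (h : Pcs B c b) {ε : ℝ} (hε : 0 < ε) :
    ∀ᶠ s in atTop, b - (B s : ℝ) < ε := by
  obtain ⟨j, hj⟩ := h.lim ε hε
  refine eventually_atTop.2 ⟨j, fun s hs => ?_⟩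
  have : (B j : ℝ) ≤ B s := by exact_mod_cast h.mono.monotone hs
  linarith

theorem Pcs.eventually_mul {b : ℝ} (h : Pcs B c b) {ε : ℝ} (hε : 0 < ε) (n : ℕ) :
    ∀ᶠ s in atTop, (n : ℝ) * (b - (B s : ℝ)) < ε := by
  have h1 : (0 : ℝ) < ε / (n + 1) := by positivity
  refine (h.eventually h1).mono fun s hs => ?_
  have h2 := h.lt s
  have hn : (0 : ℝ) < (n : ℝ) + 1 := by positivity
  rw [lt_div_iff₀ hn] at hs
  nlinarith [Nat.cast_nonneg (α := ℝ) n]

/-- Coefficient of `x^θ` in `μ x^g (∑ c_j x^{B_j})^l` for a power `l` of `p`. -/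
theorem coeff_lead_pow {p : ℕ} [Fact p.Prime] [CharP k p] (B : ℕ → Λ) (c : ℕ → k) (g : Λ) (μ : k)
    {s t : ℕ} (hst : s ≤ t) (f : ℕ) (θ : Λ) :
    (AddMonoidAlgebra.single g μ * (Ys B c t - Ys B c s) ^ p ^ f).coeff θ =
      ∑ j ∈ Finset.Ico s t, if g + (p ^ f) • B j = θ then μ * c j ^ p ^ f else 0 := by
  rw [Ys_sub B c hst, single_sum_pow, Finset.mul_sum, AddMonoidAlgebra.coeff_sum,
    Finsupp.finsetSum_apply]
  refine Finset.sum_congr rfl fun j _ => ?_
  rw [AddMonoidAlgebra.single_mul_single, AddMonoidAlgebra.coeff_single, Finsupp.single_apply]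

end Pool.Agent.LU1T
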