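import Pool.Agent.Lib.LU1_h90.TKapMain

/-!
# The combinatorial core with an additional linear family
-/

set_option autoImplicit false

namespace Pool.Agent.LU1T

open AddMonoidAlgebra Polynomial Filter

variable {k : Type*} [Field k] {Λ : AddSubgroup ℝ} {B : ℕ → Λ} {c : ℕ → k} {b : ℝ}

/-- Combinatorial core with an additional linear family of monomials. -/
theorem kap_core' {p : ℕ} [hp : Fact p.Prime] [CharP k p] (hΛ : Λ.FG) (hB : Pcs B c b)
    {R : ℕ → AddMonoidAlgebra k Λ} {r : AddMonoidAlgebra k Λ} {S : Finset ℕ}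
    (hpow : ∀ l ∈ S, ∃ f, l = p ^ f) {g : ℕ → Λ} {μ : ℕ → k} (hμ : ∀ l ∈ S, μ l ≠ 0) {w : ℝ}
    (hg : ∀ l ∈ S, (g l : ℝ) + l * b = w) {a₁ : Λ} (ha₁ : (a₁ : ℝ) + b = w) (ν : ℕ → k)
    {D : ℕ} (hD : D ∈ S) (hD2 : 2 ≤ D) {s : ℕ}
    (hR : ∀ t, s ≤ t → Ge w (R t - r -
      ∑ l ∈ S, AddMonoidAlgebra.single (g l) (μ l) * (Ys B c t - Ys B c s) ^ l -
      ∑ j ∈ Finset.Ico s t, AddMonoidAlgebra.single (a₁ + B j) (ν j)))
    (hlim : ∀ θ : Λ, (θ : ℝ) < w → ∀ᶠ t in atTop, (R t).coeff θ = 0) : False := by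
  classical
  have hS : S.Nonempty := ⟨D, hD⟩
  set e := S.max' hS with he
  have heS : e ∈ S := S.max'_mem hS
  have he2 : 2 ≤ e := hD2.trans (S.le_max' _ hD)
  obtain ⟨f₀, hf₀⟩ := hpow e heS
  have hp2 : 2 ≤ p := hp.out.two_le
  have he0 : 0 < e := by omega
  have he0' : (0 : ℝ) < e := by exact_mod_cast he0
  -- the exponents `θ j`
  set θ : ℕ → Λ := fun j => g e + e • B j with hθ
  have hθv : ∀ j, (θ j : ℝ) = w - e * (b - B j) := by
    intro j
    have := hg e heS
    rw [hθ]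
    simp only [AddSubgroup.coe_add, AddSubgroup.coe_nsmul, nsmul_eq_mul]
    linarith
  have hθinj : Function.Injective θ := by
    intro i j hij
    have h1 := congrArg (fun x : Λ => (x : ℝ)) hij
    simp only [hθv] at h1
    have h2 : (e : ℝ) * (b - B i) = e * (b - B j) := by linarith
    have h3 := mul_left_cancel₀ he0'.ne' h2
    exact hB.mono.injective (Subtype.ext (by linarith))
  obtain ⟨J, hJ⟩ : ∃ J, ∀ j, J ≤ j → r.coeff (θ j) = 0 := by
    have hfin : (θ ⁻¹' (r.coeff.support : Set Λ)).Finite :=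
      (Finset.finite_toSet _).preimage hθinj.injOn
    obtain ⟨J, hJ⟩ := hfin.bddAbove
    refine ⟨J + 1, fun j hj => ?_⟩
    by_contra hne
    have : j ≤ J := hJ (by
      rw [Set.mem_preimage, Finset.mem_coe, Finsupp.mem_support_iff]; exact hne)
    omega
  -- the extended families
  set g' : ℕ → Λ := fun l => if l = 1 then a₁ else g l with hg'
  have hgg' : ∀ l ∈ S, g' l = g l := by
    intro l hl
    rw [hg']
    by_cases h1 : l = 1
    · subst h1
      have := hg 1 hl
      rw [Nat.cast_one, one_mul] at this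
      exact (if_pos rfl).trans (Subtype.ext (by linarith))
    · exact if_neg h1
  have hg'e : g' e = g e := hgg' e heS
  refine chain hΛ hp2 hB.mono hB.lt (S := insert 1 S) (g := g') (w := w) ?_ ?_ (e := e)
    (Finset.mem_insert_of_mem heS) (J := max J s) fun j hj => ?_
  · intro l hl
    rcases Finset.mem_insert.1 hl with rfl | hl
    · exact ⟨0, by rw [pow_zero]⟩
    · exact hpow l hl
  · intro l hl
    rcases Finset.mem_insert.1 hl with rfl | hl
    · rw [Nat.cast_one, one_mul]; exact ha₁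
    · rw [hgg' l hl]; exact hg l hl
  have hjJ : J ≤ j := (le_max_left _ _).trans hj
  have hjs : s ≤ j := (le_max_right _ _).trans hj
  have hlt : (θ j : ℝ) < w := by
    rw [hθv]
    have := hB.lt j
    nlinarith
  obtain ⟨t, ht⟩ := ((hlim (θ j) hlt).and (eventually_ge_atTop (j + 1))).exists
  obtain ⟨ht0, htj⟩ := ht
  have hst : s ≤ t := by omega
  have h1 := (hR t hst).coeff_eq_zero hlt
  by_contra hcon
  push Not at hcon
  rw [hg'e] at hcon
  have hlin : (∑ j ∈ Finset.Ico s t, AddMonoidAlgebra.single (a₁ + B j) (ν j)).coeff (θ j) = 0 := by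
    rw [AddMonoidAlgebra.coeff_sum, Finsupp.finsetSum_apply]
    refine Finset.sum_eq_zero fun i _ => ?_
    rw [AddMonoidAlgebra.coeff_single, Finsupp.single_apply, if_neg]
    have h2 := hcon 1 (Finset.mem_insert_self 1 S) (by omega) i
    rw [one_smul] at h2
    intro h3
    exact h2 (by rw [hg']; simpa using h3)
  rw [AddMonoidAlgebra.coeff_sub, AddMonoidAlgebra.coeff_sub, AddMonoidAlgebra.coeff_sub,
    Finsupp.sub_apply, Finsupp.sub_apply, Finsupp.sub_apply, ht0, hJ j hjJ, hlin, sub_zero,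
    sub_zero, zero_sub, neg_eq_zero, AddMonoidAlgebra.coeff_sum, Finsupp.finsetSum_apply] at h1
  rw [Finset.sum_eq_single e] at h1
  · rw [hf₀, coeff_lead_pow B c _ _ hst, ← hf₀] at h1
    rw [Finset.sum_eq_single j] at h1
    · rw [if_pos rfl] at h1
      exact mul_ne_zero (hμ e heS) (pow_ne_zero _ (hB.ne j)) h1
    · intro i _ hij
      rw [if_neg fun h => hij (hθinj h)]
    · intro hj'
      exact absurd (Finset.mem_Ico.2 ⟨hjs, by omega⟩) hj'
  · intro l hl hle
    obtain ⟨f, rfl⟩ := hpow l hl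
    rw [coeff_lead_pow B c _ _ hst]
    refine Finset.sum_eq_zero fun i _ => ?_
    rw [if_neg]
    have h2 := hcon _ (Finset.mem_insert_of_mem hl)
      (lt_of_le_of_ne (S.le_max' _ hl) hle) i
    rwa [hgg' _ hl] at h2
  · exact fun h => absurd heS h

end Pool.Agent.LU1T
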