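import Pool.Agent.Lib.LU1_h90.TKap

/-!
# Strong form of Kaplansky's lemma for Laurent polynomials in characteristic `p`
-/

set_option autoImplicit false

namespace Pool.Agent.LU1T

open AddMonoidAlgebra Polynomial Filter

variable {k : Type*} [Field k] {Λ : AddSubgroup ℝ} {B : ℕ → Λ} {c : ℕ → k} {b : ℝ}

/-- The statement of the theorem for one polynomial. -/
def Kap (B : ℕ → Λ) (c : ℕ → k) (b : ℝ) (Q : (AddMonoidAlgebra k Λ)[X]) : Prop :=
  ∃ g μ, Settled B c Q g μ ∧ ∀ l, 1 ≤ l → ∀ g' μ', Settled B c (hasseDeriv l Q) g' μ' →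
    (g : ℝ) < g' + l * b

/-- Combinatorial core: the values of the polynomial cannot tend to `w`. -/
theorem kap_core {p : ℕ} [hp : Fact p.Prime] [CharP k p] (hΛ : Λ.FG) (hB : Pcs B c b)
    {R : ℕ → AddMonoidAlgebra k Λ} {r : AddMonoidAlgebra k Λ} {S : Finset ℕ} (hS : S.Nonempty)
    (hpow : ∀ l ∈ S, ∃ f, l = p ^ f) {g : ℕ → Λ} {μ : ℕ → k} (hμ : ∀ l ∈ S, μ l ≠ 0) {w : ℝ}
    (hg : ∀ l ∈ S, (g l : ℝ) + l * b = w) {s : ℕ}
    (hR : ∀ t, s ≤ t → Ge w (R t - r -
      ∑ l ∈ S, AddMonoidAlgebra.single (g l) (μ l) * (Ys B c t - Ys B c s) ^ l))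
    (hlim : ∀ θ : Λ, (θ : ℝ) < w → ∀ᶠ t in atTop, (R t).coeff θ = 0) : False := by
  classical
  set e := S.max' hS with he
  have heS : e ∈ S := S.max'_mem hS
  obtain ⟨f₀, hf₀⟩ := hpow e heS
  have hp2 : 2 ≤ p := hp.out.two_le
  have he0 : 0 < e := by rw [hf₀]; exact Nat.pow_pos (by omega)
  have he0' : (0 : ℝ) < e := by exact_mod_cast he0
  -- the exponents `θ j`
  set θ : ℕ → Λ := fun j => g e + e • B j with hθ
  have hθv : ∀ j, (θ j : ℝ) = w - e * (b - B j) := by
    intro j
    have := hg e heS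
    rw [hθ]
    simp only [AddSubgroup.coe_add, AddSubgroup.coe_nsmul, nsmul_eq_mul]
    linarith
  have hθinj : Function.Injective θ := by
    intro i j hij
    have h1 := congrArg (fun x : Λ => (x : ℝ)) hij
    simp only [hθv] at h1
    have h2 : (e : ℝ) * (b - B i) = e * (b - B j) := by linarith
    have h3 := mul_left_cancel₀ he0'.ne' h2
    exact hB.mono.injective (Subtype.ext (by linarith))
  obtain ⟨J, hJ⟩ : ∃ J, ∀ j, J ≤ j → r.coeff (θ j) = 0 := by
    have hfin : (θ ⁻¹' (r.coeff.support : Set Λ)).Finite :=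
      (Finset.finite_toSet _).preimage hθinj.injOn
    obtain ⟨J, hJ⟩ := hfin.bddAbove
    refine ⟨J + 1, fun j hj => ?_⟩
    by_contra hne
    have : j ≤ J := hJ (by
      rw [Set.mem_preimage, Finset.mem_coe, Finsupp.mem_support_iff]; exact hne)
    omega
  refine chain hΛ hp2 hB.mono hB.lt hpow hg heS (J := max J s) fun j hj => ?_
  have hjJ : J ≤ j := (le_max_left _ _).trans hj
  have hjs : s ≤ j := (le_max_right _ _).trans hj
  have hlt : (θ j : ℝ) < w := by
    rw [hθv]
    have := hB.lt j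
    nlinarith
  obtain ⟨t, ht⟩ := ((hlim (θ j) hlt).and (eventually_ge_atTop (j + 1))).exists
  obtain ⟨ht0, htj⟩ := ht
  have hst : s ≤ t := by omega
  have h1 := (hR t hst).coeff_eq_zero hlt
  rw [AddMonoidAlgebra.coeff_sub, AddMonoidAlgebra.coeff_sub, Finsupp.sub_apply,
    Finsupp.sub_apply, ht0, hJ j hjJ, sub_zero, zero_sub, neg_eq_zero,
    AddMonoidAlgebra.coeff_sum, Finsupp.finsetSum_apply] at h1
  by_contra hcon
  push Not at hcon
  rw [Finset.sum_eq_single e] at h1
  · rw [hf₀, coeff_lead_pow B c _ _ hst, ← hf₀] at h1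
    rw [Finset.sum_eq_single j] at h1
    · rw [if_pos rfl] at h1
      exact mul_ne_zero (hμ e heS) (pow_ne_zero _ (hB.ne j)) h1
    · intro i _ hij
      rw [if_neg fun h => hij (hθinj h)]
    · intro hj'
      exact absurd (Finset.mem_Ico.2 ⟨hjs, by omega⟩) hj'
  · intro l hl hle
    obtain ⟨f, rfl⟩ := hpow l hl
    rw [coeff_lead_pow B c _ _ hst]
    refine Finset.sum_eq_zero fun i _ => ?_
    rw [if_neg]
    exact hcon _ hl (lt_of_le_of_ne (S.le_max' _ hl) hle) i
  · exact fun h => absurd heS h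

theorem kap_aux {p : ℕ} [hp : Fact p.Prime] [CharP k p] (hΛ : Λ.FG) (hB : Pcs B c b) :
    ∀ (n : ℕ) (Q : (AddMonoidAlgebra k Λ)[X]), Q ≠ 0 → Q.natDegree ≤ n → Kap B c b Q := by
  classical
  intro n
  induction n with
  | zero =>
    intro Q hQ hn
    obtain ⟨a, rfl⟩ : ∃ a, Q = C a := ⟨_, eq_C_of_natDegree_le_zero hn⟩
    have ha : a ≠ 0 := fun h => hQ (by rw [h, C_0])
    obtain ⟨g, μ, δ, hμ, hδ, h⟩ := exists_lead ha
    refine ⟨g, μ, ⟨hμ, δ, hδ, Eventually.of_forall fun s => by rw [eval_C]; exact h⟩, ?_⟩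
    intro l hl g' μ' h'
    rw [hasseDeriv_C _ _ (by omega)] at h'
    exact absurd rfl h'.ne_zero
  | succ n ih =>
    intro Q hQ hn
    by_cases hd0 : Q.natDegree ≤ n
    · exact ih Q hQ hd0
    set d := Q.natDegree with hd
    have hd1 : 1 ≤ d := by omega
    -- the Hasse derivatives
    have hder : ∀ l, ∃ g μ, 1 ≤ l → hasseDeriv l Q ≠ 0 → Settled B c (hasseDeriv l Q) g μ ∧
        ∀ l', 1 ≤ l' → ∀ g' μ', Settled B c (hasseDeriv l' (hasseDeriv l Q)) g' μ' →
          (g : ℝ) < g' + l' * b := by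
      intro l
      by_cases h : 1 ≤ l ∧ hasseDeriv l Q ≠ 0
      · obtain ⟨g, μ, h1, h2⟩ := ih _ h.2 (by
          have := natDegree_hasseDeriv_le Q l
          omega)
        exact ⟨g, μ, fun _ _ => ⟨h1, h2⟩⟩
      · exact ⟨0, 0, fun h1 h2 => absurd ⟨h1, h2⟩ h⟩
    choose g μ hgμ using hder
    set I := (Finset.Icc 1 d).filter fun l => hasseDeriv l Q ≠ 0 with hI
    have hIm : ∀ l, l ∈ I ↔ (1 ≤ l ∧ l ≤ d) ∧ hasseDeriv l Q ≠ 0 := by
      intro l; rw [hI, Finset.mem_filter, Finset.mem_Icc]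
    have hdI : d ∈ I := by
      rw [hIm]
      refine ⟨⟨hd1, le_rfl⟩, ?_⟩
      rw [hd, hasseDeriv_natDegree_eq_C]
      simpa using hQ
    set w := I.inf' ⟨d, hdI⟩ fun l => (g l : ℝ) + l * b with hw
    have hwle : ∀ l ∈ I, w ≤ g l + l * b := fun l hl =>
      Finset.inf'_le (fun l => (g l : ℝ) + l * b) hl
    obtain ⟨l₁, hl₁, hwl₁⟩ := Finset.exists_mem_eq_inf' ⟨d, hdI⟩ fun l => (g l : ℝ) + l * b
    -- common gap
    obtain ⟨δ, hδ, hgap⟩ := common_gap I
      (fun l δ => ∀ᶠ s in atTop, Lead (g l) (μ l) δ ((hasseDeriv l Q).eval (Ys B c s)))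
      (fun l δ δ' h h' => h.mono fun s hs => hs.mono h')
      (fun l hl => by
        obtain ⟨h1, h2⟩ := (hIm l).1 hl
        exact (hgμ l h1.1 h2).1.2)
    have hgap' : ∀ᶠ s in atTop, ∀ l ∈ I, Lead (g l) (μ l) δ ((hasseDeriv l Q).eval (Ys B c s)) :=
      (Filter.eventually_all_finset I).2 hgap
    obtain ⟨s₀, hs₀⟩ := eventually_atTop.1 hgap'
    -- the terms of the Taylor formula
    have hterm : ∀ s, s₀ ≤ s → ∀ t, s ≤ t → ∀ l ∈ Finset.Icc 1 d,
        Ge (w - d * (b - B s)) ((hasseDeriv l Q).eval (Ys B c s) * (Ys B c t - Ys B c s) ^ l) := by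
      intro s hs t hst l hl
      by_cases hlI : l ∈ I
      · have h1 := ((hs₀ s hs l hlI).ge hδ.le).mul ((Ge.Ys_sub hB.mono c hst).pow l)
        refine h1.mono ?_
        have h2 := hwle l hlI
        have h3 := hB.lt s
        have h4 : (l : ℝ) ≤ d := by exact_mod_cast (Finset.mem_Icc.1 hl).2
        nlinarith
      · have h0 : hasseDeriv l Q = 0 := by
          by_contra hne
          exact hlI ((hIm l).2 ⟨Finset.mem_Icc.1 hl, hne⟩)
        rw [h0, eval_zero, zero_mul]
        exact Ge.zero _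
    by_cases hcase : ∃ s, s₀ ≤ s ∧ ¬ Ge (w - d * (b - B s)) (Q.eval (Ys B c s))
    · -- case a
      obtain ⟨s, hs, hnge⟩ := hcase
      have hne : Q.eval (Ys B c s) ≠ 0 := fun h => hnge (by rw [h]; exact Ge.zero _)
      obtain ⟨g₀, μ₀, δ₀, hμ₀, hδ₀, hlead⟩ := exists_lead hne
      have hg₀ : (g₀ : ℝ) < w - d * (b - B s) := by
        unfold Ge at hnge
        push Not at hnge
        obtain ⟨θ, hθ, hθ'⟩ := hnge
        exact lt_of_le_of_lt (hlead.ge hδ₀.le θ hθ) hθ'
      refine ⟨g₀, μ₀, ⟨hμ₀, min δ₀ (w - d * (b - B s) - g₀), lt_min hδ₀ (by linarith), ?_⟩, ?_⟩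
      · refine eventually_atTop.2 ⟨s, fun t hst => ?_⟩
        unfold Lead
        have h1 : Q.eval (Ys B c t) - AddMonoidAlgebra.single g₀ μ₀ =
            (Q.eval (Ys B c s) - AddMonoidAlgebra.single g₀ μ₀) +
              ∑ l ∈ Finset.Icc 1 Q.natDegree,
                (hasseDeriv l Q).eval (Ys B c s) * (Ys B c t - Ys B c s) ^ l := by
          rw [eval_taylor Q (Ys B c s) (Ys B c t)]
          abel
        rw [h1]
        refine Ge.add (hlead.mono (min_le_left _ _)) (Ge.sum fun l hl => ?_)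
        refine (hterm s hs t hst l hl).mono ?_
        have := min_le_right δ₀ (w - d * (b - B s) - g₀)
        linarith
      · intro l hl g' μ' h'
        have hne' := h'.ne_zero
        have hld : l ≤ d := by
          by_contra hcon
          exact hne' (hasseDeriv_eq_zero_of_lt_natDegree Q l (by omega))
        have hlI : l ∈ I := (hIm l).2 ⟨⟨hl, hld⟩, hne'⟩
        have h1 := (h'.unique (hgμ l hl hne').1).1
        have h2 := hwle l hlI
        have h3 := hB.lt s
        have h4 : (0 : ℝ) ≤ d := Nat.cast_nonneg d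
        rw [h1]
        nlinarith
    · -- case b
      exfalso
      push Not at hcase
      set S := I.filter fun l => (g l : ℝ) + l * b = w with hS
      have hSm : ∀ l, l ∈ S ↔ l ∈ I ∧ (g l : ℝ) + l * b = w := by
        intro l; rw [hS, Finset.mem_filter]
      have hSne : S.Nonempty := ⟨l₁, (hSm l₁).2 ⟨hl₁, by rw [hw, hwl₁]⟩⟩
      have hSpow : ∀ l ∈ S, ∃ f, l = p ^ f := by
        intro l hl
        obtain ⟨hlI, hlw⟩ := (hSm l).1 hl
        obtain ⟨⟨hl1, hld⟩, hlne⟩ := (hIm l).1 hlI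
        refine eq_pow_of_choose (k := k) (by omega) fun i hi hil => ?_
        by_contra hch
        have hcomp : hasseDeriv (l - i) (hasseDeriv i Q) = l.choose i • hasseDeriv l Q := by
          have := congrArg (fun F : (AddMonoidAlgebra k Λ)[X] →ₗ[AddMonoidAlgebra k Λ] _ => F Q)
            (hasseDeriv_comp (R := AddMonoidAlgebra k Λ) (l - i) i)
          simp only [LinearMap.comp_apply, LinearMap.smul_apply] at this
          rw [this, Nat.sub_add_cancel hil.le, Nat.choose_symm hil.le]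
        have hset : Settled B c (hasseDeriv (l - i) (hasseDeriv i Q)) (g l)
            ((l.choose i : k) * μ l) := by
          rw [hcomp]
          exact (hgμ l hl1 hlne).1.nsmul hch
        have hine : hasseDeriv i Q ≠ 0 := by
          intro h0
          have := hset.ne_zero
          rw [h0, map_zero] at this
          exact this rfl
        have h1 := (hgμ i hi hine).2 (l - i) (by omega) _ _ hset
        have h2 := hwle i ((hIm i).2 ⟨⟨hi, by omega⟩, hine⟩)
        rw [Nat.cast_sub hil.le] at h1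
        linarith
      -- choose the stage
      have hev1 : ∀ᶠ s in atTop, ∀ l ∈ I, l ∉ S → w ≤ g l + l * (B s : ℝ) := by
        refine (Filter.eventually_all_finset I).2 fun l hl => ?_
        by_cases hlS : l ∈ S
        · exact Eventually.of_forall fun s h => absurd hlS h
        · have h1 : 0 < (g l : ℝ) + l * b - w := by
            have h2 := hwle l hl
            have h3 : (g l : ℝ) + l * b ≠ w := fun h => hlS ((hSm l).2 ⟨hl, h⟩)
            have h4 := lt_of_le_of_ne h2 (Ne.symm h3)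
            linarith
          refine (hB.eventually_mul h1 l).mono fun s hs _ => ?_
          linarith
      have hev2 : ∀ᶠ s in atTop, ∀ l ∈ S, (l : ℝ) * (b - (B s : ℝ)) < δ :=
        (Filter.eventually_all_finset S).2 fun l _ => hB.eventually_mul hδ l
      obtain ⟨s, ⟨hs1, hs2⟩, hs3⟩ := ((hev1.and hev2).and (eventually_ge_atTop s₀)).exists
      refine kap_core (p := p) hΛ hB (R := fun t => Q.eval (Ys B c t))
        (r := Q.eval (Ys B c s)) hSne hSpow (g := g) (μ := μ) ?_ (w := w)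
        (fun l hl => ((hSm l).1 hl).2) (s := s) ?_ ?_
      · intro l hl
        obtain ⟨h1, h2⟩ := (hIm l).1 ((hSm l).1 hl).1
        exact (hgμ l h1.1 h2).1.1
      · intro t hst
        have hsub : S ⊆ Finset.Icc 1 Q.natDegree := fun l hl => by
          have := ((hIm l).1 ((hSm l).1 hl).1).1
          exact Finset.mem_Icc.2 this
        have h1 : Q.eval (Ys B c t) - Q.eval (Ys B c s) -
            ∑ l ∈ S, AddMonoidAlgebra.single (g l) (μ l) * (Ys B c t - Ys B c s) ^ l =
            ∑ l ∈ S, ((hasseDeriv l Q).eval (Ys B c s) - AddMonoidAlgebra.single (g l) (μ l)) *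
              (Ys B c t - Ys B c s) ^ l +
            ∑ l ∈ Finset.Icc 1 Q.natDegree \ S,
              (hasseDeriv l Q).eval (Ys B c s) * (Ys B c t - Ys B c s) ^ l := by
          rw [eval_taylor Q (Ys B c s) (Ys B c t), ← Finset.sum_sdiff hsub]
          simp only [sub_mul, Finset.sum_sub_distrib]
          abel
        rw [h1]
        refine Ge.add (Ge.sum fun l hl => ?_) (Ge.sum fun l hl => ?_)
        · have h2 := Ge.mul (hs₀ s hs3 l ((hSm l).1 hl).1) ((Ge.Ys_sub hB.mono c hst).pow l)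
          refine h2.mono ?_
          have h3 := ((hSm l).1 hl).2
          have h4 := hs2 l hl
          linarith
        · obtain ⟨hlI, hlS⟩ := Finset.mem_sdiff.1 hl
          by_cases hl' : l ∈ I
          · have h2 := ((hs₀ s hs3 l hl').ge hδ.le).mul ((Ge.Ys_sub hB.mono c hst).pow l)
            exact h2.mono (hs1 l hl' hlS)
          · have h0 : hasseDeriv l Q = 0 := by
              by_contra hne
              exact hl' ((hIm l).2 ⟨Finset.mem_Icc.1 hlI, hne⟩)
            rw [h0, eval_zero, zero_mul]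
            exact Ge.zero _
      · intro θ hθ
        have h1 : 0 < w - (θ : ℝ) := by linarith
        refine ((hB.eventually_mul h1 d).and (eventually_ge_atTop s₀)).mono fun t ht => ?_
        exact (hcase t ht.2).coeff_eq_zero (by linarith [ht.1])

/-- Strong form of Kaplansky's lemma. -/
theorem kap {p : ℕ} [Fact p.Prime] [CharP k p] (hΛ : Λ.FG) (hB : Pcs B c b)
    {Q : (AddMonoidAlgebra k Λ)[X]} (hQ : Q ≠ 0) : Kap B c b Q :=
  kap_aux hΛ hB _ Q hQ le_rfl

end Pool.Agent.LU1T
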