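import Pool.Agent.Lib.LU1_h90.TailW

/-!
# The tail: first consequences of the `W`-operators
-/

set_option autoImplicit false

namespace Pool.Agent.LU1T

open AddMonoidAlgebra Polynomial Filter

variable {k : Type*} [Field k] {Λ : AddSubgroup ℝ} {p : ℕ} [hp : Fact p.Prime] [CharP k p]

/-- The reduced form `R` of the polynomial `F` at stage `s` (`x^θ T^l` has the value `θ + l B_s`):
`F = R + (h^p - h) + E` where `R` is reduced, contains `x^ρ T^D`, and its monomials have at least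
the value of this monomial; the monomials of `E` have values at least `0`. -/
structure TailAt (B : ℕ → Λ) (p N D : ℕ) (ρ : Λ) (s : ℕ)
    (F R h E : (AddMonoidAlgebra k Λ)[X]) : Prop where
  eq : F = R + (h ^ p - h) + E
  deg : R.natDegree ≤ N
  degh : h.natDegree ≤ N
  ge : ∀ l : ℕ, Ge ((ρ : ℝ) + D * B s - l * B s) (R.coeff l)
  mem : (R.coeff D).coeff ρ ≠ 0
  red : ∀ (l : ℕ) (θ : Λ), p ∣ l → (R.coeff l).coeff (p • θ) ≠ 0 → 0 ≤ (p : ℝ) * θ + l * B s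
  err : ∀ l : ℕ, Ge (-(l * (B s : ℝ))) (E.coeff l)

/-- The hypotheses of the tail theorem. -/
structure Tail (B : ℕ → Λ) (c : ℕ → k) (b : ℝ) (p N D : ℕ) (ρ : Λ)
    (G : (AddMonoidAlgebra k Λ)[X]) (s₀ : ℕ) : Prop where
  pcs : Pcs B c b
  two_le : 2 ≤ D
  neg : ∀ s, (ρ : ℝ) + D * B s < 0
  tail : ∀ s, s₀ ≤ s → ∃ R h E, TailAt B p N D ρ s (taylor (Ys B c s) G) R h E

variable {B : ℕ → Λ} {c : ℕ → k} {b : ℝ} {N D : ℕ} {ρ : Λ} {G : (AddMonoidAlgebra k Λ)[X]}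
  {s₀ s : ℕ} {F R h E : (AddMonoidAlgebra k Λ)[X]} {I m : ℕ}

omit hp [CharP k p] in
theorem smul_pow_sub {i i' : ℕ} (hii : i ≤ i') (hi : i' ≤ I) (hpp : 0 < p) {θ η : Λ}
    (h : (p ^ (I - i)) • θ = (p ^ (I - i')) • η) : (p ^ (i' - i)) • θ = η := by
  have h1 : I - i = (I - i') + (i' - i) := by omega
  rw [h1, pow_add, mul_smul] at h
  exact nsmul_inj (Nat.pow_pos hpp) h

omit [CharP k p] in
/-- A monomial of negative value in the reduced form excludes its `p`-power multiples. -/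
theorem TailAt.excl (hT : TailAt B p N D ρ s F R h E) {l j : ℕ} (hj : 0 < j) {η : Λ}
    (hη : (η : ℝ) + l * B s < 0) : (R.coeff (p ^ j * l)).coeff ((p ^ j) • η) = 0 := by
  by_contra hne
  have hpp : (0 : ℝ) < p := by exact_mod_cast hp.out.pos
  have h1 : p ^ j = p * p ^ (j - 1) := by rw [← pow_succ', Nat.sub_add_cancel hj]
  have h2 : (p ^ j) • η = p • ((p ^ (j - 1)) • η) := by rw [h1, mul_smul]
  rw [h2] at hne
  have h3 := hT.red (p ^ j * l) _ (by rw [h1, mul_assoc]; exact dvd_mul_right _ _) hne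
  rw [AddSubgroup.coe_nsmul, nsmul_eq_mul, ← mul_assoc, ← Nat.cast_mul, ← h1] at h3
  push_cast at h3
  have h4 : (p : ℝ) ^ j * η + (p : ℝ) ^ j * l * B s = (p : ℝ) ^ j * (η + l * B s) := by ring
  rw [h4] at h3
  have h5 : (0 : ℝ) < (p : ℝ) ^ j := pow_pos hpp j
  nlinarith

/-- Monomials of negative value of the reduced form are visible in `W`. -/
theorem TailAt.coeff_W (hT : TailAt B p N D ρ s F R h E) {i : ℕ} (hi : i ≤ I) {η : Λ}
    (hη : (η : ℝ) + (p ^ i * m : ℕ) * B s < 0) (hne : (R.coeff (p ^ i * m)).coeff η ≠ 0) :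
    (W p I m R).coeff ((p ^ (I - i)) • η) ≠ 0 := by
  classical
  unfold W
  rw [AddMonoidAlgebra.coeff_sum, Finsupp.finsetSum_apply, Finset.sum_eq_single i]
  · rw [coeff_pow_char]
    exact pow_ne_zero _ hne
  · intro i' hi' hne'
    rw [Finset.mem_range] at hi'
    by_contra hcon
    obtain ⟨η', h1, h2⟩ := exists_of_coeff_pow _ _ hcon
    rcases lt_or_gt_of_ne hne' with hlt | hgt
    · -- `i' < i`
      have h3 := smul_pow_sub (p := p) hlt.le hi hp.out.pos h1.symm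
      have h4 : (η' : ℝ) + (p ^ i' * m : ℕ) * B s < 0 := by
        rw [← h3, AddSubgroup.coe_nsmul, nsmul_eq_mul] at hη
        have h5 : ((p ^ i * m : ℕ) : ℝ) = (p ^ (i - i') : ℕ) * (p ^ i' * m : ℕ) := by
          rw [← Nat.cast_mul, ← mul_assoc, ← pow_add, Nat.sub_add_cancel hlt.le]
        rw [h5, mul_assoc, ← mul_add] at hη
        have h6 : (0 : ℝ) < (p ^ (i - i') : ℕ) := by
          exact_mod_cast Nat.pow_pos hp.out.pos
        by_contra h7
        push Not at h7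
        exact absurd (mul_nonneg h6.le h7) (not_le.2 hη)
      have h5 := hT.excl (j := i - i') (by omega) h4
      rw [← mul_assoc, ← pow_add, Nat.sub_add_cancel hlt.le, h3] at h5
      exact hne h5
    · have h3 := smul_pow_sub (p := p) hgt.le (by omega : i' ≤ I) hp.out.pos h1
      have h5 := hT.excl (j := i' - i) (by omega) hη
      rw [← mul_assoc, ← pow_add, Nat.sub_add_cancel hgt.le, h3] at h5
      exact h2 h5
  · intro h1
    exact absurd (Finset.mem_range.2 (by omega)) h1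

omit hp [CharP k p] in
/-- The error contributes only large exponents. -/
theorem TailAt.err_W (hT : TailAt B p N D ρ s F R h E) :
    Ge (-((p ^ I * m : ℕ) * (B s : ℝ))) (W p I m E) := by
  unfold W
  refine Ge.sum fun i hi => ?_
  rw [Finset.mem_range] at hi
  refine ((hT.err (p ^ i * m)).pow (p ^ (I - i))).mono (le_of_eq ?_)
  have h1 : ((p ^ I * m : ℕ) : ℝ) = (p ^ (I - i) : ℕ) * (p ^ i * m : ℕ) := by
    rw [← Nat.cast_mul, ← mul_assoc, ← pow_add, Nat.sub_add_cancel (by omega)]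
  rw [h1]; ring

theorem TailAt.W_eq (hT : TailAt B p N D ρ s F R h E) (hI : N < p ^ I) (hm : ¬ p ∣ m) :
    W p I m F = W p I m R + W p I m E := by
  rw [hT.eq, W_add, W_add, W_wp I m (lt_of_le_of_lt hT.degh hI) hm, add_zero]

/-- Monomials of negative value of the reduced form are visible in `W F`. -/
theorem TailAt.coeff_W' (hT : TailAt B p N D ρ s F R h E) (hI : N < p ^ I) (hm : ¬ p ∣ m)
    {i : ℕ} (hi : i ≤ I) {η : Λ} (hη : (η : ℝ) + (p ^ i * m : ℕ) * B s < 0)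
    (hne : (R.coeff (p ^ i * m)).coeff η ≠ 0) :
    (W p I m F).coeff ((p ^ (I - i)) • η) ≠ 0 := by
  rw [hT.W_eq hI hm, AddMonoidAlgebra.coeff_add, Finsupp.add_apply,
    hT.err_W.coeff_eq_zero (θ := (p ^ (I - i)) • η), add_zero]
  · exact hT.coeff_W hi hη hne
  · rw [AddSubgroup.coe_nsmul, nsmul_eq_mul]
    have h1 : ((p ^ I * m : ℕ) : ℝ) = (p ^ (I - i) : ℕ) * (p ^ i * m : ℕ) := by
      rw [← Nat.cast_mul, ← mul_assoc, ← pow_add, Nat.sub_add_cancel hi]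
    rw [h1]
    have h2 : (0 : ℝ) < (p ^ (I - i) : ℕ) := by exact_mod_cast Nat.pow_pos hp.out.pos
    nlinarith

/-- Conversely small exponents of `W F` come from the reduced form. -/
theorem TailAt.of_coeff_W (hT : TailAt B p N D ρ s F R h E) (hI : N < p ^ I) (hm : ¬ p ∣ m)
    {θ : Λ} (hθ : (θ : ℝ) < -((p ^ I * m : ℕ) * (B s : ℝ))) (hne : (W p I m F).coeff θ ≠ 0) :
    ∃ i, i ≤ I ∧ ∃ η, θ = (p ^ (I - i)) • η ∧ (R.coeff (p ^ i * m)).coeff η ≠ 0 := by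
  rw [hT.W_eq hI hm, AddMonoidAlgebra.coeff_add, Finsupp.add_apply,
    hT.err_W.coeff_eq_zero hθ, add_zero] at hne
  unfold W at hne
  rw [AddMonoidAlgebra.coeff_sum, Finsupp.finsetSum_apply] at hne
  obtain ⟨i, hi, h1⟩ := Finset.exists_ne_zero_of_sum_ne_zero hne
  obtain ⟨η, h2, h3⟩ := exists_of_coeff_pow _ _ h1
  exact ⟨i, by rw [Finset.mem_range] at hi; omega, η, h2, h3⟩

/-- A value which is visible at infinitely many stages is at least that of the leading term. -/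
theorem Settled.le_of_frequently {Q : (AddMonoidAlgebra k Λ)[X]} {g : Λ} {μ : k}
    (h : Settled B c Q g μ) {θ : Λ} (hθ : ∃ᶠ s in atTop, (Q.eval (Ys B c s)).coeff θ ≠ 0) :
    g ≤ θ := by
  obtain ⟨_, δ, hδ, h⟩ := h
  obtain ⟨s, h1, h2⟩ := (hθ.and_eventually h).exists
  have := h2.ge hδ.le θ h1
  exact_mod_cast this

/-- Comparison of the leading terms of `Q_1` and `Q_m`. -/
theorem Q1_lt (hΛ : Λ.FG) (hB : Pcs B c b) (G : (AddMonoidAlgebra k Λ)[X]) (hm2 : 2 ≤ m)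
    (hm : ¬ p ∣ m) {g : Λ} {μ : k} (h : Settled B c (Qm p I G m) g μ) :
    ∃ g₁ μ₁, Settled B c (Qm p I G 1) g₁ μ₁ ∧
      (g₁ : ℝ) + (p ^ I : ℕ) * b < g + (p ^ I * m : ℕ) * b := by
  have hmk : (m : k) ≠ 0 := fun h0 => hm ((CharP.cast_eq_zero_iff k p m).1 h0)
  have h1 : Settled B c (hasseDeriv (p ^ I * (m - 1)) (Qm p I G 1)) g (m * μ) := by
    obtain ⟨hμ, δ, hδ, h2⟩ := h.nsmul hmk
    refine ⟨hμ, δ, hδ, h2.mono fun s hs => ?_⟩
    rw [hasse_Q1_eval I m G _ (by omega)]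
    rwa [eval_smul, nsmul_eq_mul] at hs
  have hQ1 : Qm p I G 1 ≠ 0 := by
    intro h0
    have := h1.ne_zero
    rw [h0, map_zero] at this
    exact this rfl
  obtain ⟨g₁, μ₁, h2, h3⟩ := kap hΛ hB hQ1
  have h4 := h3 (p ^ I * (m - 1)) (Nat.mul_pos (Nat.pow_pos hp.out.pos) (by omega)) _ _ h1
  refine ⟨g₁, μ₁, h2, ?_⟩
  have h5 : ((p ^ I * m : ℕ) : ℝ) = (p ^ I : ℕ) + (p ^ I * (m - 1) : ℕ) := by
    rw [← Nat.cast_add]
    congr 1
    nth_rw 2 [← mul_one (p ^ I)]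
    rw [← mul_add, Nat.add_sub_cancel' (by omega)]
  rw [h5]
  linarith

/-- Lower bound for the leading exponent of `Q_1`. -/
theorem Tail.low (hT : Tail B c b p N D ρ G s₀) (hI : N < p ^ I) {g₁ : Λ} {μ₁ : k}
    (h₁ : Settled B c (Qm p I G 1) g₁ μ₁) (hlt : (g₁ : ℝ) + (p ^ I : ℕ) * b < 0) :
    ∃ i, i ≤ I ∧ (p ^ (I - i) : ℕ) * ((ρ : ℝ) + D * b) ≤ g₁ + (p ^ I : ℕ) * b := by
  by_contra hcon
  push Not at hcon
  have hpcs := hT.pcs
  -- at a late stage no `i` is possible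
  have hev : ∀ᶠ s in atTop, ∀ i ∈ Finset.range (I + 1),
      (g₁ : ℝ) + ((p ^ I : ℕ) : ℝ) * (B s : ℝ) <
        ((p ^ (I - i) : ℕ) : ℝ) * ((ρ : ℝ) + (D : ℝ) * (B s : ℝ)) := by
    refine (Filter.eventually_all_finset _).2 fun i hi => ?_
    rw [Finset.mem_range] at hi
    have h1 := hcon i (by omega)
    have h2 : 0 < (p ^ (I - i) : ℕ) * ((ρ : ℝ) + D * b) - (g₁ + (p ^ I : ℕ) * b) := by linarith
    refine (hpcs.eventually_mul h2 (p ^ (I - i) * D)).mono fun s hs => ?_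
    have h3 := hpcs.lt s
    have h4 : (0 : ℝ) ≤ (p ^ I : ℕ) := Nat.cast_nonneg _
    rw [Nat.cast_mul] at hs
    have h5 := mul_le_mul_of_nonneg_left h3.le h4
    linarith
  obtain ⟨hμ, δ, hδ, hs1⟩ := h₁
  obtain ⟨s, ⟨⟨h2, h3⟩, h4⟩⟩ := ((hev.and hs1).and (eventually_ge_atTop s₀)).exists
  obtain ⟨R, h, E, hR⟩ := hT.tail s h4
  have h5 : ((Qm p I G 1).eval (Ys B c s)).coeff g₁ ≠ 0 := by
    rw [h3.coeff hδ]; exact hμ
  rw [Qm_eval] at h5
  have h6 : ¬ p ∣ 1 := fun h => hp.out.one_lt.ne' (Nat.dvd_one.1 h)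
  obtain ⟨i, hi, η, hη, hne⟩ := hR.of_coeff_W hI h6 (θ := g₁) (by
    have h7 := hpcs.lt s
    have h8 : (0 : ℝ) < (p ^ I * 1 : ℕ) := by
      exact_mod_cast Nat.mul_pos (Nat.pow_pos hp.out.pos) one_pos
    rw [mul_one] at h8 ⊢
    nlinarith) h5
  have h7 := hR.ge (p ^ i * 1) η hne
  have h8 := h2 i (Finset.mem_range.2 (by omega))
  have h9 : (g₁ : ℝ) = (p ^ (I - i) : ℕ) * (η : ℝ) := by
    rw [hη, AddSubgroup.coe_nsmul, nsmul_eq_mul]
  have h10 : ((p ^ I : ℕ) : ℝ) = (p ^ (I - i) : ℕ) * (p ^ i : ℕ) := by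
    rw [← Nat.cast_mul, ← pow_add, Nat.sub_add_cancel hi]
  rw [mul_one] at h7
  have h11 : (0 : ℝ) ≤ (p ^ (I - i) : ℕ) := Nat.cast_nonneg _
  have h12 := mul_le_mul_of_nonneg_left h7 h11
  rw [h9, h10] at h8
  linarith

/-- First consequence: `p` divides `D`; if the limit value is zero then `D` is a power of `p`. -/
theorem Tail.dvd (hΛ : Λ.FG) (hT : Tail B c b p N D ρ G s₀) :
    p ∣ D ∧ ((ρ : ℝ) + D * b = 0 → ∃ a, D = p ^ a) := by
  have hpcs := hT.pcs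
  have hA : (ρ : ℝ) + D * b ≤ 0 := by
    by_contra hcon
    push Not at hcon
    obtain ⟨s, hs⟩ := (hpcs.eventually_mul hcon D).exists
    have := hT.neg s
    linarith
  obtain ⟨I, hI⟩ : ∃ I, N < p ^ I := ⟨N, Nat.lt_pow_self hp.out.one_lt⟩
  obtain ⟨a, m, hm, hD⟩ := Nat.exists_eq_pow_mul_and_not_dvd
    (by have := hT.two_le; omega : D ≠ 0) p hp.out.ne_one
  have hDN : D ≤ N := by
    obtain ⟨R, h, E, hR⟩ := hT.tail s₀ le_rfl
    refine le_trans (le_natDegree_of_ne_zero fun h0 => hR.mem ?_) hR.deg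
    rw [h0]; rfl
  have hm0 : 0 < m := Nat.pos_of_ne_zero fun h0 => hm (h0 ▸ dvd_zero p)
  have haI : a ≤ I := by
    by_contra hcon
    push Not at hcon
    have h1 : p ^ I ≤ p ^ a := Nat.pow_le_pow_right hp.out.pos hcon.le
    have h2 : p ^ a ≤ D := by rw [hD]; exact Nat.le_mul_of_pos_right _ hm0
    omega
  -- `Q_m` is settled and its leading exponent is small
  have hvis : ∀ s, s₀ ≤ s → ((Qm p I G m).eval (Ys B c s)).coeff ((p ^ (I - a)) • ρ) ≠ 0 := by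
    intro s hs
    obtain ⟨R, h, E, hR⟩ := hT.tail s hs
    rw [Qm_eval]
    refine hR.coeff_W' hI hm haI ?_ ?_
    · rw [← hD]; exact hT.neg s
    · rw [← hD]; exact hR.mem
  have hQm : Qm p I G m ≠ 0 := by
    intro h0
    apply hvis s₀ le_rfl
    rw [h0, eval_zero]; rfl
  obtain ⟨g, μ, hg, -⟩ := kap hΛ hpcs hQm
  have hgle : g ≤ (p ^ (I - a)) • ρ := hg.le_of_frequently
    ((eventually_atTop.2 ⟨s₀, hvis⟩).frequently)
  have hgle' : (g : ℝ) + (p ^ I * m : ℕ) * b ≤ (p ^ (I - a) : ℕ) * ((ρ : ℝ) + D * b) := by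
    have h1 : (g : ℝ) ≤ (p ^ (I - a) : ℕ) * (ρ : ℝ) := by
      have : (g : ℝ) ≤ (((p ^ (I - a)) • ρ : Λ) : ℝ) := by exact_mod_cast hgle
      rwa [AddSubgroup.coe_nsmul, nsmul_eq_mul] at this
    have h2 : ((p ^ I * m : ℕ) : ℝ) = (p ^ (I - a) : ℕ) * (D : ℝ) := by
      rw [hD, ← Nat.cast_mul, ← mul_assoc, ← pow_add, Nat.sub_add_cancel haI]
    rw [h2]; linarith
  by_cases hm2 : 2 ≤ m
  · obtain ⟨g₁, μ₁, h1, h2⟩ := Q1_lt hΛ hpcs G hm2 hm hg
    have hpos : (0 : ℝ) < (p ^ (I - a) : ℕ) := by exact_mod_cast Nat.pow_pos hp.out.pos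
    have h3 : (g₁ : ℝ) + (p ^ I : ℕ) * b < 0 := by nlinarith
    obtain ⟨i, hi, h4⟩ := hT.low hI h1 h3
    have h5 : ((p ^ (I - i) : ℕ) : ℝ) * ((ρ : ℝ) + D * b) <
        (p ^ (I - a) : ℕ) * ((ρ : ℝ) + D * b) := by linarith
    have hA' : (ρ : ℝ) + D * b < 0 := by
      rcases hA.lt_or_eq with h | h
      · exact h
      · rw [h] at h5; simp at h5
    have h6 : ((p ^ (I - a) : ℕ) : ℝ) < (p ^ (I - i) : ℕ) := by
      by_contra hcon
      push Not at hcon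
      nlinarith
    have h7 : I - a < I - i := (Nat.pow_lt_pow_iff_right hp.out.one_lt).1 (by exact_mod_cast h6)
    refine ⟨?_, fun h => absurd h hA'.ne⟩
    rw [hD]
    exact Dvd.dvd.mul_right (dvd_pow_self p (by omega)) m
  · have hm1 : m = 1 := by omega
    rw [hm1, mul_one] at hD
    refine ⟨?_, fun _ => ⟨a, hD⟩⟩
    have ha : a ≠ 0 := by
      rintro rfl
      have := hT.two_le
      rw [pow_zero] at hD; omega
    rw [hD]; exact dvd_pow_self p ha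

end Pool.Agent.LU1T
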