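import Pool.Agent.Lib.LU1_h90.TailI

/-!
# The tail: the case where the values tend to zero
-/

set_option autoImplicit false

namespace Pool.Agent.LU1T

open AddMonoidAlgebra Polynomial Filter

variable {k : Type*} [Field k] {Λ : AddSubgroup ℝ} {p : ℕ} [hp : Fact p.Prime] [CharP k p]

/-- Class invariant: it vanishes on `x^p - x` (up to the last coefficient of `x`). -/
theorem class_wp (x : AddMonoidAlgebra k Λ) {θ : Λ} (hθ : ∀ η : Λ, θ ≠ p • η) (J : ℕ)
    (hJ : x.coeff ((p ^ J) • θ) = 0) :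
    ∑ i ∈ Finset.range (J + 1), ((x ^ p - x).coeff ((p ^ i) • θ)) ^ p ^ (J - i) = 0 := by
  have hpp := hp.out.pos
  have h1 : ∀ i, (x ^ p).coeff ((p ^ (i + 1)) • θ) = (x.coeff ((p ^ i) • θ)) ^ p := by
    intro i
    have := coeff_pow_char (p := p) x 1 ((p ^ i) • θ)
    rw [pow_one] at this
    rw [← this, pow_succ', mul_smul]
  have h0 : (x ^ p).coeff ((p ^ 0) • θ) = 0 := by
    by_contra hne
    obtain ⟨η, h2, -⟩ := exists_of_coeff_pow (p := p) x 1 (θ := (p ^ 0) • θ) (by rwa [pow_one])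
    rw [pow_zero, one_smul, pow_one] at h2
    exact hθ η h2
  have h2 : ∀ i, ((x ^ p - x).coeff ((p ^ i) • θ)) ^ p ^ (J - i) =
      ((x ^ p).coeff ((p ^ i) • θ)) ^ p ^ (J - i) - (x.coeff ((p ^ i) • θ)) ^ p ^ (J - i) := by
    intro i
    rw [AddMonoidAlgebra.coeff_sub, Finsupp.sub_apply, sub_pow_char_pow]
  simp only [h2]
  rw [Finset.sum_sub_distrib, sub_eq_zero, Finset.sum_range_succ', Finset.sum_range_succ, h0, hJ,
    zero_pow (Nat.pow_pos hpp).ne', zero_pow (Nat.pow_pos hpp).ne']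
  congr 1
  refine Finset.sum_congr rfl fun i hi => ?_
  rw [Finset.mem_range] at hi
  rw [h1, ← pow_mul, ← pow_succ', show J - (i + 1) + 1 = J - i by omega]

omit hp [CharP k p] in
/-- High multiples of a nonzero exponent are not in the support. -/
theorem exists_coeff_eq_zero (hp2 : 2 ≤ p) (x : AddMonoidAlgebra k Λ) {θ : Λ} (hθ : θ ≠ 0) :
    ∃ J₀, ∀ J, J₀ ≤ J → x.coeff ((p ^ J) • θ) = 0 := by
  classical
  have hinj : Function.Injective fun J : ℕ => (p ^ J) • θ := by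
    intro i j hij
    have h1 := congrArg (fun x : Λ => (x : ℝ)) hij
    simp only [AddSubgroup.coe_nsmul, nsmul_eq_mul] at h1
    have h2 : (θ : ℝ) ≠ 0 := fun h => hθ (Subtype.ext h)
    have h3 := mul_right_cancel₀ h2 h1
    exact Nat.pow_right_injective hp2 (by exact_mod_cast h3)
  have hfin : ((fun J : ℕ => (p ^ J) • θ) ⁻¹' (x.coeff.support : Set Λ)).Finite :=
    (Finset.finite_toSet _).preimage hinj.injOn
  obtain ⟨J, hJ⟩ := hfin.bddAbove
  refine ⟨J + 1, fun j hj => ?_⟩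
  by_contra hne
  have : j ≤ J := hJ (by
    rw [Set.mem_preimage, Finset.mem_coe, Finsupp.mem_support_iff]; exact hne)
  omega

variable {B : ℕ → Λ} {c : ℕ → k} {b : ℝ} {N D : ℕ} {ρ : Λ} {G : (AddMonoidAlgebra k Λ)[X]}
  {s₀ s : ℕ} {F R h E : (AddMonoidAlgebra k Λ)[X]} {I m : ℕ}

/-- In the case of limit zero all monomials but one of the reduced form have a positive weight, so
they have nonnegative values at a late stage. -/
theorem Tail.gap (hΛ : Λ.FG) (hT : Tail B c b p N D ρ G s₀) (h0 : (ρ : ℝ) + D * b = 0) {a : ℕ}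
    (ha : D = p ^ a) : ∃ s, s₀ ≤ s ∧ ∀ R h E, TailAt B p N D ρ s (taylor (Ys B c s) G) R h E →
      ∀ (l : ℕ) (η : Λ), 1 ≤ l → (R.coeff l).coeff η ≠ 0 → (l ≠ D ∨ η ≠ ρ) →
        0 ≤ (η : ℝ) + l * B s := by
  classical
  have hpcs := hT.pcs
  obtain ⟨I, hI⟩ : ∃ I, N < p ^ I := ⟨N, Nat.lt_pow_self hp.out.one_lt⟩
  have hDN : D ≤ N := by
    obtain ⟨R, h, E, hR⟩ := hT.tail s₀ le_rfl
    refine le_trans (le_natDegree_of_ne_zero fun h0 => hR.mem ?_) hR.deg
    rw [h0]; rfl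
  have haI : a ≤ I := by
    by_contra hcon
    push Not at hcon
    have h1 : p ^ I ≤ p ^ a := Nat.pow_le_pow_right hp.out.pos hcon.le
    omega
  have h1p : ¬ p ∣ 1 := fun h => hp.out.one_lt.ne' (Nat.dvd_one.1 h)
  have hIpos : (0 : ℝ) < (p ^ I : ℕ) := by exact_mod_cast Nat.pow_pos hp.out.pos
  -- `Q_1` is settled at `p^{I-a} ρ`
  have hvis : ∀ s, s₀ ≤ s → ((Qm p I G 1).eval (Ys B c s)).coeff ((p ^ (I - a)) • ρ) ≠ 0 := by
    intro s hs
    obtain ⟨R, h, E, hR⟩ := hT.tail s hs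
    rw [Qm_eval]
    refine hR.coeff_W' hI h1p haI ?_ ?_
    · rw [mul_one, ← ha]; exact hT.neg s
    · rw [mul_one, ← ha]; exact hR.mem
  have hQ1 : Qm p I G 1 ≠ 0 := by
    intro h0
    apply hvis s₀ le_rfl
    rw [h0, eval_zero]; rfl
  obtain ⟨g, μ, hg, -⟩ := kap hΛ hpcs hQ1
  have hρI : (((p ^ (I - a)) • ρ : Λ) : ℝ) = -((p ^ I : ℕ) * b) := by
    rw [AddSubgroup.coe_nsmul, nsmul_eq_mul]
    have h2 : ((p ^ I : ℕ) : ℝ) = (p ^ (I - a) : ℕ) * (D : ℝ) := by
      rw [ha, ← Nat.cast_mul, ← pow_add, Nat.sub_add_cancel haI]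
    rw [h2]
    have : (ρ : ℝ) = -(D * b) := by linarith
    rw [this]; ring
  have hgeq : (g : ℝ) = -((p ^ I : ℕ) * b) := by
    have hle : (g : ℝ) ≤ (((p ^ (I - a)) • ρ : Λ) : ℝ) := by
      exact_mod_cast hg.le_of_frequently ((eventually_atTop.2 ⟨s₀, hvis⟩).frequently)
    rw [hρI] at hle
    rcases hle.lt_or_eq with hlt | heq
    · obtain ⟨i, hi, h4⟩ := hT.low hI hg (by linarith)
      rw [h0, mul_zero] at h4
      linarith
    · exact heq
  obtain ⟨hμ, δ₁, hδ₁, hlead⟩ := hg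
  -- the gap for the operators `Q_m`
  obtain ⟨δ, hδ, hgap⟩ := common_gap ((Finset.range (N + 1)).filter fun m => ¬ p ∣ m)
    (fun m δ => ∀ᶠ s in atTop, ∀ θ : Λ, ((Qm p I G m).eval (Ys B c s)).coeff θ ≠ 0 →
      (m = 1 ∧ (θ : ℝ) = -((p ^ I : ℕ) * b)) ∨ -((p ^ I * m : ℕ) * b) + δ ≤ θ)
    (fun m δ δ' h h' => h.mono fun s hs θ hθ => (hs θ hθ).imp id fun h => by linarith)
    (fun m hm => by
      obtain ⟨hmN, hmp⟩ := Finset.mem_filter.1 hm
      have hm0 : 0 < m := Nat.pos_of_ne_zero fun h0 => hmp (h0 ▸ dvd_zero p)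
      by_cases hm1 : m = 1
      · subst hm1
        refine ⟨δ₁, hδ₁, hlead.mono fun s hs θ hθ => ?_⟩
        by_cases hθg : θ = g
        · left; exact ⟨rfl, by rw [hθg, hgeq]⟩
        · right
          have h2 := hs θ (by
            rw [AddMonoidAlgebra.coeff_sub, Finsupp.sub_apply, AddMonoidAlgebra.coeff_single,
              Finsupp.single_eq_of_ne hθg, sub_zero]
            exact hθ)
          rw [mul_one]; linarith
      · by_cases hQ : Qm p I G m = 0
        · refine ⟨1, one_pos, Eventually.of_forall fun s θ hθ => ?_⟩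
          rw [hQ, eval_zero] at hθ
          exact absurd rfl hθ
        · obtain ⟨g', μ', hg', -⟩ := kap hΛ hpcs hQ
          obtain ⟨g₁, μ₁, h2, h3⟩ := Q1_lt hΛ hpcs G (by omega) hmp hg'
          have h4 : g₁ = g := (h2.unique ⟨hμ, δ₁, hδ₁, hlead⟩).1
          rw [h4, hgeq] at h3
          refine ⟨g' + (p ^ I * m : ℕ) * b, by linarith, ?_⟩
          obtain ⟨hμ', δ', hδ', h5⟩ := hg'
          refine h5.mono fun s hs θ hθ => Or.inr ?_
          have := hs.ge hδ'.le θ hθ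
          linarith)
  have hgap' := (Filter.eventually_all_finset _).2 hgap
  have hδ' : (0 : ℝ) < δ / (p ^ I : ℕ) := div_pos hδ hIpos
  obtain ⟨s, ⟨hs1, hs2⟩, hs3⟩ := ((hgap'.and (hpcs.eventually_mul hδ' N)).and
    (eventually_ge_atTop s₀)).exists
  refine ⟨s, hs3, fun R h E hR l η hl hne hlη => ?_⟩
  by_contra hcon
  push Not at hcon
  obtain ⟨i, m, hm, hlim⟩ := Nat.exists_eq_pow_mul_and_not_dvd (by omega : l ≠ 0) p hp.out.ne_one
  have hm0 : 0 < m := Nat.pos_of_ne_zero fun h0 => hm (h0 ▸ dvd_zero p)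
  have hlN : l ≤ N := by
    refine le_trans (le_natDegree_of_ne_zero fun h0 => hne ?_) hR.deg
    rw [h0]; rfl
  have hml : m ≤ l := by rw [hlim]; exact Nat.le_mul_of_pos_left _ (Nat.pow_pos hp.out.pos)
  have hiI : i ≤ I := by
    by_contra hcon'
    push Not at hcon'
    have h1 : p ^ I ≤ p ^ i := Nat.pow_le_pow_right hp.out.pos hcon'.le
    have h2 : p ^ i ≤ l := by rw [hlim]; exact Nat.le_mul_of_pos_right _ hm0
    omega
  have h2 : ((Qm p I G m).eval (Ys B c s)).coeff ((p ^ (I - i)) • η) ≠ 0 := by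
    rw [Qm_eval]
    refine hR.coeff_W' hI hm hiI ?_ ?_
    · rw [← hlim]; exact hcon
    · rw [← hlim]; exact hne
  have h3 : ((p ^ I * m : ℕ) : ℝ) = (p ^ (I - i) : ℕ) * (l : ℝ) := by
    rw [hlim, ← Nat.cast_mul, ← mul_assoc, ← pow_add, Nat.sub_add_cancel hiI]
  have hipos : (0 : ℝ) < (p ^ (I - i) : ℕ) := by exact_mod_cast Nat.pow_pos hp.out.pos
  rcases hs1 m (Finset.mem_filter.2 ⟨Finset.mem_range.2 (by omega), hm⟩) _ h2 with ⟨hm1, h4⟩ | h4
  · -- the exponent of `ρ`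
    subst hm1
    rw [mul_one] at hlim
    have h5 : (p ^ (I - i)) • η = (p ^ (I - a)) • ρ := Subtype.ext (by rw [h4, hρI])
    rcases lt_trichotomy i a with hia | hia | hia
    · -- `i < a`
      have h6 := smul_pow_sub (p := p) hia.le haI hp.out.pos h5
      have h7 := hR.excl (l := l) (j := a - i) (by omega) hcon
      rw [h6, hlim, ← pow_add, Nat.sub_add_cancel hia.le, ← ha] at h7
      exact hR.mem h7
    · subst hia
      rcases hlη with h | h
      · exact h (by rw [hlim, ha])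
      · exact h (nsmul_inj (Nat.pow_pos hp.out.pos) h5)
    · have h6 := smul_pow_sub (p := p) hia.le hiI hp.out.pos h5.symm
      have h7 := hR.excl (l := D) (j := i - a) (by omega) (hT.neg s)
      rw [h6, ha, ← pow_add, Nat.sub_add_cancel hia.le, ← hlim] at h7
      exact hne h7
  · rw [AddSubgroup.coe_nsmul, nsmul_eq_mul, h3] at h4
    have h5 : δ ≤ (p ^ (I - i) : ℕ) * ((η : ℝ) + l * b) := by linarith
    have h6 : (η : ℝ) + l * b < δ / (p ^ I : ℕ) := by
      have h7 := hpcs.lt s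
      have h8 : (l : ℝ) ≤ N := by exact_mod_cast hlN
      have h9 : (l : ℝ) * (b - B s) ≤ N * (b - B s) :=
        mul_le_mul_of_nonneg_right h8 (by linarith)
      linarith
    have h7 : (p ^ (I - i) : ℕ) * ((η : ℝ) + l * b) < δ := by
      have h8 : ((p ^ (I - i) : ℕ) : ℝ) ≤ (p ^ I : ℕ) := by
        exact_mod_cast Nat.pow_le_pow_right hp.out.pos (Nat.sub_le _ _)
      have h9 : 0 < (η : ℝ) + l * b := by
        by_contra hc
        push Not at hc
        have := mul_nonneg hipos.le (neg_nonneg.2 hc)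
        linarith
      calc (p ^ (I - i) : ℕ) * ((η : ℝ) + l * b) ≤ (p ^ I : ℕ) * ((η : ℝ) + l * b) :=
            mul_le_mul_of_nonneg_right h8 h9.le
        _ < (p ^ I : ℕ) * (δ / (p ^ I : ℕ)) := mul_lt_mul_of_pos_left h6 hIpos
        _ = δ := by field_simp
    linarith

end Pool.Agent.LU1T
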