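import Pool.Agent.Lib.LU1_h90.TailIIb
import Pool.Agent.Lib.LU1_h90.TDer
import Pool.Agent.Lib.LU1_h90.TKapGen

/-!
# The tail: preparation of the case of negative limit value
-/

set_option autoImplicit false

namespace Pool.Agent.LU1T

open AddMonoidAlgebra Polynomial Filter

variable {k : Type*} [Field k] {Λ : AddSubgroup ℝ} {p : ℕ} [hp : Fact p.Prime] [CharP k p]
variable {B : ℕ → Λ} {c : ℕ → k} {b : ℝ} {N D : ℕ} {ρ : Λ} {G : (AddMonoidAlgebra k Λ)[X]}
  {s₀ s : ℕ} {F R h E : (AddMonoidAlgebra k Λ)[X]} {I m : ℕ}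

/-- Lower bounds for `h` from lower bounds for `h ^ p - h`. -/
theorem wp_low {β V : ℝ} (hV : V < 0)
    (H : ∀ l : ℕ, Ge (V - l * β) ((h ^ p - h).coeff l)) (l : ℕ) :
    Ge (V / p - l * β) (h.coeff l) := by
  intro θ hθ
  by_contra hcon
  push Not at hcon
  have hpp : (0 : ℝ) < p := by exact_mod_cast hp.out.pos
  have hu : (p : ℝ) * ((θ : ℝ) + l * β) < V := by
    have h1 : (θ : ℝ) + l * β < V / p := by linarith
    rw [lt_div_iff₀ hpp] at h1
    linarith
  have hstep : ∀ i, (h.coeff (p ^ i * l)).coeff ((p ^ i) • θ) ≠ 0 := by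
    intro i
    induction i with
    | zero => simpa using hθ
    | succ i ih =>
      have h1 : ((h ^ p - h).coeff (p ^ (i + 1) * l)).coeff ((p ^ (i + 1)) • θ) = 0 := by
        refine (H _).coeff_eq_zero ?_
        rw [AddSubgroup.coe_nsmul, nsmul_eq_mul]
        push_cast
        have h2 : (1 : ℝ) ≤ (p : ℝ) ^ i := one_le_pow₀ (by exact_mod_cast hp.out.one_lt.le)
        have h3 : (p : ℝ) ^ (i + 1) * θ + (p : ℝ) ^ (i + 1) * l * β =
            (p : ℝ) ^ i * ((p : ℝ) * ((θ : ℝ) + l * β)) := by ring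
        have h4 : (p : ℝ) ^ i * ((p : ℝ) * ((θ : ℝ) + l * β)) ≤ (p : ℝ) * ((θ : ℝ) + l * β) := by
          nlinarith
        linarith
      have h2 : (h ^ p).coeff (p ^ (i + 1) * l) = (h.coeff (p ^ i * l)) ^ p := by
        have h3 := coeff_poly_pow (p := p) h 1 (p ^ i * l)
        rw [pow_one] at h3
        rw [← h3]
        congr 1
        ring
      rw [Polynomial.coeff_sub, h2, AddMonoidAlgebra.coeff_sub, Finsupp.sub_apply,
        sub_eq_zero] at h1
      rw [← h1]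
      have h3 := coeff_pow_char (p := p) (h.coeff (p ^ i * l)) 1 ((p ^ i) • θ)
      rw [pow_one, smul_smul, ← pow_succ'] at h3
      rw [h3]
      exact pow_ne_zero _ ih
  rcases Nat.eq_zero_or_pos l with rfl | hl
  · have hθ0 : θ ≠ 0 := by
      rintro rfl
      simp at hu
      linarith
    obtain ⟨J, hJ⟩ := exists_coeff_eq_zero hp.out.two_le (h.coeff 0) hθ0
    have := hstep J
    rw [mul_zero] at this
    exact this (hJ J le_rfl)
  · refine hstep h.natDegree ?_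
    rw [coeff_eq_zero_of_natDegree_lt]
    · rfl
    · calc h.natDegree < p ^ h.natDegree := Nat.lt_pow_self hp.out.one_lt
        _ ≤ p ^ h.natDegree * l := Nat.le_mul_of_pos_right _ hl

/-- The situation at one stage after change of the base point. -/
structure Stage (B : ℕ → Λ) (p D : ℕ) (ρ : Λ) (V : ℝ) (t : ℕ)
    (F R h E : (AddMonoidAlgebra k Λ)[X]) : Prop where
  eq : F = R + (h ^ p - h) + E
  ge : ∀ l : ℕ, Ge ((ρ : ℝ) + D * B t - l * B t) (R.coeff l)
  mem : (R.coeff D).coeff ρ ≠ 0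
  hge : ∀ l : ℕ, Ge (V / p - l * B t) (h.coeff l)
  err : ∀ l : ℕ, Ge (-(l * (B t : ℝ))) (E.coeff l)

theorem Tail.stage (hT : Tail B c b p N D ρ G s₀) (hs : s₀ ≤ s) :
    ∃ G' : (AddMonoidAlgebra k Λ)[X], ∀ t, s ≤ t → ∃ R h E,
      Stage B p D ρ ((ρ : ℝ) + D * B s) t (Polynomial.taylor (Ys B c t) G') R h E := by
  obtain ⟨R₁, h₁, E₁, hR₁⟩ := hT.tail s hs
  have hpcs := hT.pcs
  have := charP_gaX (k := k) (Λ := Λ) (p := p)
  refine ⟨Polynomial.taylor (-Ys B c s) R₁, fun t hst => ?_⟩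
  obtain ⟨R, h, E, hR⟩ := hT.tail t (by omega)
  set τ := Ys B c t - Ys B c s with hτ
  have hτge : Ge (B s : ℝ) τ := Ge.Ys_sub hpcs.mono c hst
  have hBst : (B s : ℝ) ≤ B t := by exact_mod_cast hpcs.mono.monotone hst
  have h1 : Polynomial.taylor (Ys B c t) (Polynomial.taylor (-Ys B c s) R₁) =
      Polynomial.taylor τ R₁ := by
    rw [taylor_taylor, ← sub_eq_add_neg]
  have h2 : Polynomial.taylor (Ys B c t) G =
      Polynomial.taylor τ (Polynomial.taylor (Ys B c s) G) := by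
    rw [taylor_taylor, hτ, sub_add_cancel]
  have h3 : Polynomial.taylor τ R₁ = R + ((h - Polynomial.taylor τ h₁) ^ p -
      (h - Polynomial.taylor τ h₁)) + (E - Polynomial.taylor τ E₁) := by
    have h4 := h2.symm.trans hR.eq
    rw [hR₁.eq, map_add, map_add, map_sub, taylor_pow] at h4
    have h5 := sub_pow_char_pow (p := p) (n := 1) h (Polynomial.taylor τ h₁)
    rw [pow_one] at h5
    rw [h5]
    have h6 : Polynomial.taylor τ R₁ = (Polynomial.taylor τ R₁ + (Polynomial.taylor τ h₁ ^ p -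
        Polynomial.taylor τ h₁) + Polynomial.taylor τ E₁) - ((Polynomial.taylor τ h₁ ^ p -
        Polynomial.taylor τ h₁) + Polynomial.taylor τ E₁) := by ring
    rw [h6, h4]
    ring
  have hE : ∀ l : ℕ, Ge (-(l * (B t : ℝ))) ((E - Polynomial.taylor τ E₁).coeff l) := by
    intro l
    rw [Polynomial.coeff_sub]
    refine (hR.err l).sub ?_
    refine (Ge.taylor (V := 0) (fun l => (hR₁.err l).mono (by linarith)) hτge l).mono ?_
    have := mul_le_mul_of_nonneg_left hBst (Nat.cast_nonneg (α := ℝ) l)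
    linarith
  refine ⟨R, h - Polynomial.taylor τ h₁, E - Polynomial.taylor τ E₁, ?_, hR.ge, hR.mem, ?_, hE⟩
  · rw [h1, h3]
  · refine wp_low (hT.neg s) fun l => ?_
    have h4 : ((h - Polynomial.taylor τ h₁) ^ p - (h - Polynomial.taylor τ h₁)).coeff l =
        (Polynomial.taylor τ R₁).coeff l - R.coeff l - (E - Polynomial.taylor τ E₁).coeff l := by
      rw [h3, Polynomial.coeff_add, Polynomial.coeff_add]
      ring
    rw [h4]
    have h5 := mul_le_mul_of_nonneg_left hBst (Nat.cast_nonneg (α := ℝ) l)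
    have h6 := mul_le_mul_of_nonneg_left hBst (Nat.cast_nonneg (α := ℝ) D)
    refine Ge.sub (Ge.sub ?_ ?_) ?_
    · exact (Ge.taylor hR₁.ge hτge l).mono (by linarith)
    · exact (hR.ge l).mono (by linarith)
    · have := hT.neg s
      exact (hE l).mono (by linarith)

omit hp [CharP k p] in
theorem Settled.ge_of {Q : (AddMonoidAlgebra k Λ)[X]} {g : Λ} {μ : k} (h : Settled B c Q g μ)
    {v : ℝ} (hv : ∀ ε > (0 : ℝ), ∀ᶠ t in atTop, Ge (v - ε) (Q.eval (Ys B c t))) :
    v ≤ g := by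
  by_contra hcon
  push Not at hcon
  obtain ⟨hμ, δ, hδ, h⟩ := h
  obtain ⟨t, h1, h2⟩ := ((hv ((v - g) / 2) (by linarith)).and h).exists
  have h3 := h1 g (by rw [h2.coeff hδ]; exact hμ)
  linarith

include hp in
/-- The leading part of the linear term. -/
theorem linear_part (hΛ : Λ.FG) (hB : Pcs B c b) {P : (AddMonoidAlgebra k Λ)[X]} {A : ℝ}
    (hP : ∀ ε > (0 : ℝ), ∀ᶠ t in atTop, Ge (A - b - ε) (P.eval (Ys B c t))) :
    ∃ (a₁ : Λ) (μ₁ : k) (δ : ℝ), 0 < δ ∧ (μ₁ = 0 ∨ (a₁ : ℝ) + b = A) ∧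
      ∀ᶠ t in atTop, ∀ l : ℕ, Ge (A - ((l : ℝ) + 1) * b + δ) ((hasseDeriv l P).eval (Ys B c t) -
        if l = 0 then AddMonoidAlgebra.single a₁ μ₁ else 0) := by
  classical
  by_cases hP0 : P = 0
  · refine ⟨0, 0, 1, one_pos, Or.inl rfl, Eventually.of_forall fun t l => ?_⟩
    rw [hP0, map_zero, eval_zero, AddMonoidAlgebra.single_zero, ite_self, sub_zero]
    exact Ge.zero _
  obtain ⟨g, μ, hg, hst⟩ := kap (p := p) hΛ hB hP0
  have hgA : A ≤ (g : ℝ) + b := by
    have := hg.ge_of (v := A - b) hP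
    linarith
  -- the data of the linear term
  obtain ⟨a₁, μ₁, δ₀, hδ₀, hor, hev0⟩ : ∃ (a₁ : Λ) (μ₁ : k) (δ : ℝ), 0 < δ ∧
      (μ₁ = 0 ∨ (a₁ : ℝ) + b = A) ∧
      ∀ᶠ t in atTop, Ge (A - b + δ) (P.eval (Ys B c t) - AddMonoidAlgebra.single a₁ μ₁) := by
    obtain ⟨hμ, δ, hδ, hev⟩ := hg
    rcases hgA.lt_or_eq with hlt | heq
    · refine ⟨0, 0, (g : ℝ) + b - A, by linarith, Or.inl rfl, hev.mono fun t ht => ?_⟩
      rw [AddMonoidAlgebra.single_zero, sub_zero]
      exact (ht.ge hδ.le).mono (by linarith)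
    · refine ⟨g, μ, δ, hδ, Or.inr heq.symm, hev.mono fun t ht => ?_⟩
      exact Ge.mono ht (by linarith)
  obtain ⟨δ, hδ, hgap⟩ := common_gap (Finset.range (P.natDegree + 1))
    (fun l δ => ∀ᶠ t in atTop, Ge (A - ((l : ℝ) + 1) * b + δ)
      ((hasseDeriv l P).eval (Ys B c t) - if l = 0 then AddMonoidAlgebra.single a₁ μ₁ else 0))
    (fun l δ δ' h h' => h.mono fun t ht => ht.mono (by linarith))
    (fun l _ => by
      by_cases hl : l = 0
      · subst hl
        refine ⟨δ₀, hδ₀, hev0.mono fun t ht => ?_⟩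
        rw [if_pos rfl, hasseDeriv_zero]
        refine Ge.mono ht (le_of_eq ?_)
        push_cast
        ring
      · by_cases h0 : hasseDeriv l P = 0
        · refine ⟨1, one_pos, Eventually.of_forall fun t => ?_⟩
          rw [h0, eval_zero, if_neg hl, sub_zero]
          exact Ge.zero _
        · obtain ⟨g', μ', hg', -⟩ := kap (p := p) hΛ hB h0
          have h1 := hst l (by omega) _ _ hg'
          refine ⟨(g' : ℝ) + (l + 1) * b - A, by linarith, ?_⟩
          obtain ⟨hμ', δ', hδ', hev'⟩ := hg'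
          refine hev'.mono fun t ht => ?_
          rw [if_neg hl, sub_zero]
          exact (ht.ge hδ'.le).mono (by linarith))
  refine ⟨a₁, μ₁, δ, hδ, hor, ((Filter.eventually_all_finset _).2 hgap).mono fun t ht l => ?_⟩
  by_cases hl : l ∈ Finset.range (P.natDegree + 1)
  · exact ht l hl
  · rw [Finset.mem_range] at hl
    have h0 : l ≠ 0 := by omega
    rw [hasseDeriv_eq_zero_of_lt_natDegree P l (by omega), eval_zero, if_neg h0, sub_zero]
    exact Ge.zero _

/-- Expansion of the values at a late stage. -/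
theorem expand (hΛ : Λ.FG) (hB : Pcs B c b) (Q : (AddMonoidAlgebra k Λ)[X]) {w : ℝ}
    (hw : ∀ l : ℕ, 1 ≤ l → ∀ g μ, Settled B c (hasseDeriv l Q) g μ → w ≤ (g : ℝ) + l * b) :
    ∃ (S : Finset ℕ) (g : ℕ → Λ) (μ : ℕ → k), (∀ l ∈ S, ∃ f, l = p ^ f) ∧ (∀ l ∈ S, μ l ≠ 0) ∧
      (∀ l ∈ S, (g l : ℝ) + l * b = w) ∧
      (∀ l : ℕ, 1 ≤ l → ∀ g' μ', Settled B c (hasseDeriv l Q) g' μ' → (g' : ℝ) + l * b = w →
        l ∈ S) ∧
      ∀ᶠ s in atTop, ∀ t, s ≤ t → Ge w (Q.eval (Ys B c t) - Q.eval (Ys B c s) -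
        ∑ l ∈ S, AddMonoidAlgebra.single (g l) (μ l) * (Ys B c t - Ys B c s) ^ l) := by
  classical
  have hder : ∀ l, ∃ g μ, 1 ≤ l → hasseDeriv l Q ≠ 0 → Settled B c (hasseDeriv l Q) g μ ∧
      ∀ l', 1 ≤ l' → ∀ g' μ', Settled B c (hasseDeriv l' (hasseDeriv l Q)) g' μ' →
        (g : ℝ) < g' + l' * b := by
    intro l
    by_cases h : 1 ≤ l ∧ hasseDeriv l Q ≠ 0
    · obtain ⟨g, μ, h1, h2⟩ := kap (p := p) hΛ hB h.2
      exact ⟨g, μ, fun _ _ => ⟨h1, h2⟩⟩
    · exact ⟨0, 0, fun h1 h2 => absurd ⟨h1, h2⟩ h⟩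
  choose g μ hgμ using hder
  set d := Q.natDegree with hd
  set I := (Finset.Icc 1 d).filter fun l => hasseDeriv l Q ≠ 0 with hI
  have hIm : ∀ l, l ∈ I ↔ (1 ≤ l ∧ l ≤ d) ∧ hasseDeriv l Q ≠ 0 := by
    intro l; rw [hI, Finset.mem_filter, Finset.mem_Icc]
  have hwle : ∀ l ∈ I, w ≤ (g l : ℝ) + l * b := fun l hl => by
    obtain ⟨h1, h2⟩ := (hIm l).1 hl
    exact hw l h1.1 _ _ (hgμ l h1.1 h2).1
  obtain ⟨δ, hδ, hgap⟩ := common_gap I
    (fun l δ => ∀ᶠ s in atTop, Lead (g l) (μ l) δ ((hasseDeriv l Q).eval (Ys B c s)))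
    (fun l δ δ' h h' => h.mono fun s hs => hs.mono h')
    (fun l hl => by
      obtain ⟨h1, h2⟩ := (hIm l).1 hl
      exact (hgμ l h1.1 h2).1.2)
  have hgap' : ∀ᶠ s in atTop, ∀ l ∈ I, Lead (g l) (μ l) δ ((hasseDeriv l Q).eval (Ys B c s)) :=
    (Filter.eventually_all_finset I).2 hgap
  set S := I.filter fun l => (g l : ℝ) + l * b = w with hS
  have hSm : ∀ l, l ∈ S ↔ l ∈ I ∧ (g l : ℝ) + l * b = w := by
    intro l; rw [hS, Finset.mem_filter]
  refine ⟨S, g, μ, ?_, ?_, fun l hl => ((hSm l).1 hl).2, ?_, ?_⟩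
  · intro l hl
    obtain ⟨hlI, hlw⟩ := (hSm l).1 hl
    obtain ⟨⟨hl1, hld⟩, hlne⟩ := (hIm l).1 hlI
    refine eq_pow_of_choose (k := k) (by omega) fun i hi hil => ?_
    by_contra hch
    have hcomp : hasseDeriv (l - i) (hasseDeriv i Q) = l.choose i • hasseDeriv l Q := by
      have := congrArg (fun F : (AddMonoidAlgebra k Λ)[X] →ₗ[AddMonoidAlgebra k Λ] _ => F Q)
        (hasseDeriv_comp (R := AddMonoidAlgebra k Λ) (l - i) i)
      simp only [LinearMap.comp_apply, LinearMap.smul_apply] at this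
      rw [this, Nat.sub_add_cancel hil.le, Nat.choose_symm hil.le]
    have hset : Settled B c (hasseDeriv (l - i) (hasseDeriv i Q)) (g l)
        ((l.choose i : k) * μ l) := by
      rw [hcomp]
      exact (hgμ l hl1 hlne).1.nsmul hch
    have hine : hasseDeriv i Q ≠ 0 := by
      intro h0
      have := hset.ne_zero
      rw [h0, map_zero] at this
      exact this rfl
    have h1 := (hgμ i hi hine).2 (l - i) (by omega) _ _ hset
    have h2 := hwle i ((hIm i).2 ⟨⟨hi, by omega⟩, hine⟩)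
    rw [Nat.cast_sub hil.le] at h1
    linarith
  · intro l hl
    obtain ⟨h1, h2⟩ := (hIm l).1 ((hSm l).1 hl).1
    exact (hgμ l h1.1 h2).1.1
  · intro l hl g' μ' h' hgw
    have hne' := h'.ne_zero
    have hld : l ≤ d := by
      by_contra hcon
      exact hne' (hasseDeriv_eq_zero_of_lt_natDegree Q l (by omega))
    have hlI : l ∈ I := (hIm l).2 ⟨⟨hl, hld⟩, hne'⟩
    have h1 := (h'.unique (hgμ l hl hne').1).1
    exact (hSm l).2 ⟨hlI, by rw [← h1]; exact hgw⟩
  · have hev1 : ∀ᶠ s in atTop, ∀ l ∈ I, l ∉ S → w ≤ g l + l * (B s : ℝ) := by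
      refine (Filter.eventually_all_finset I).2 fun l hl => ?_
      by_cases hlS : l ∈ S
      · exact Eventually.of_forall fun s h => absurd hlS h
      · have h1 : 0 < (g l : ℝ) + l * b - w := by
          have h2 := hwle l hl
          have h3 : (g l : ℝ) + l * b ≠ w := fun h => hlS ((hSm l).2 ⟨hl, h⟩)
          have h4 := lt_of_le_of_ne h2 (Ne.symm h3)
          linarith
        refine (hB.eventually_mul h1 l).mono fun s hs _ => ?_
        linarith
    have hev2 : ∀ᶠ s in atTop, ∀ l ∈ S, (l : ℝ) * (b - (B s : ℝ)) < δ :=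
      (Filter.eventually_all_finset S).2 fun l _ => hB.eventually_mul hδ l
    filter_upwards [hev1, hev2, hgap'] with s hs1 hs2 hs3 t hst
    have hsub : S ⊆ Finset.Icc 1 Q.natDegree := fun l hl => by
      have := ((hIm l).1 ((hSm l).1 hl).1).1
      exact Finset.mem_Icc.2 this
    have h1 : Q.eval (Ys B c t) - Q.eval (Ys B c s) -
        ∑ l ∈ S, AddMonoidAlgebra.single (g l) (μ l) * (Ys B c t - Ys B c s) ^ l =
        ∑ l ∈ S, ((hasseDeriv l Q).eval (Ys B c s) - AddMonoidAlgebra.single (g l) (μ l)) *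
          (Ys B c t - Ys B c s) ^ l +
        ∑ l ∈ Finset.Icc 1 Q.natDegree \ S,
          (hasseDeriv l Q).eval (Ys B c s) * (Ys B c t - Ys B c s) ^ l := by
      rw [eval_taylor Q (Ys B c s) (Ys B c t), ← Finset.sum_sdiff hsub]
      simp only [sub_mul, Finset.sum_sub_distrib]
      abel
    rw [h1]
    refine Ge.add (Ge.sum fun l hl => ?_) (Ge.sum fun l hl => ?_)
    · have h2 := Ge.mul (hs3 l ((hSm l).1 hl).1) ((Ge.Ys_sub hB.mono c hst).pow l)
      refine h2.mono ?_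
      have h3 := ((hSm l).1 hl).2
      have h4 := hs2 l hl
      linarith
    · obtain ⟨hlI, hlS⟩ := Finset.mem_sdiff.1 hl
      by_cases hl' : l ∈ I
      · have h2 := ((hs3 l hl').ge hδ.le).mul ((Ge.Ys_sub hB.mono c hst).pow l)
        exact h2.mono (hs1 l hl' hlS)
      · have h0 : hasseDeriv l Q = 0 := by
          by_contra hne
          exact hl' ((hIm l).2 ⟨Finset.mem_Icc.1 hlI, hne⟩)
        rw [h0, eval_zero, zero_mul]
        exact Ge.zero _

end Pool.Agent.LU1T
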