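import Pool.Agent.Lib.LU1_h90.TailII

/-!
# The tail: contradiction in the case where the values tend to zero
-/

set_option autoImplicit false

namespace Pool.Agent.LU1T

open AddMonoidAlgebra Polynomial Filter

variable {k : Type*} [Field k] {Λ : AddSubgroup ℝ} {p : ℕ} [hp : Fact p.Prime] [CharP k p]
variable {B : ℕ → Λ} {c : ℕ → k} {b : ℝ} {N D : ℕ} {ρ : Λ} {G : (AddMonoidAlgebra k Λ)[X]}
  {s₀ s : ℕ} {F R h E : (AddMonoidAlgebra k Λ)[X]} {I m : ℕ}

omit hp [CharP k p] in
/-- Values of a polynomial whose coefficients are bounded below. -/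
theorem Ge.eval {Q : (AddMonoidAlgebra k Λ)[X]} {V β : ℝ} {τ : AddMonoidAlgebra k Λ}
    (hQ : ∀ l : ℕ, Ge (V - l * β) (Q.coeff l)) (hτ : Ge β τ) : Ge V (Q.eval τ) := by
  rw [eval_eq_sum_range]
  refine Ge.sum fun i _ => ?_
  refine ((hQ i).mul (hτ.pow i)).mono (le_of_eq ?_)
  ring

omit hp [CharP k p] in
theorem Ge.taylor {Q : (AddMonoidAlgebra k Λ)[X]} {V β : ℝ} {τ : AddMonoidAlgebra k Λ}
    (hQ : ∀ l : ℕ, Ge (V - l * β) (Q.coeff l)) (hτ : Ge β τ) (l : ℕ) :
    Ge (V - l * β) ((Polynomial.taylor τ Q).coeff l) := by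
  rw [taylor_coeff]
  refine Ge.eval (β := β) (fun i => ?_) hτ
  rw [hasseDeriv_coeff]
  refine ((hQ (i + l)).natCast_mul _).mono (le_of_eq ?_)
  push_cast
  ring

omit hp [CharP k p] in
/-- The exponent `ρ` is not divisible by `p`. -/
theorem Tail.not_dvd (hT : Tail B c b p N D ρ G s₀) (hpD : p ∣ D) (η : Λ) : ρ ≠ p • η := by
  rintro rfl
  obtain ⟨R, h, E, hR⟩ := hT.tail s₀ le_rfl
  have h1 := hR.red D η hpD hR.mem
  have h2 := hT.neg s₀
  rw [AddSubgroup.coe_nsmul, nsmul_eq_mul] at h2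
  linarith

theorem Tail.false_of_zero (hΛ : Λ.FG) (hT : Tail B c b p N D ρ G s₀)
    (h0 : (ρ : ℝ) + D * b = 0) : False := by
  classical
  have hpcs := hT.pcs
  have hpp := hp.out.pos
  obtain ⟨hpD, hD⟩ := hT.dvd hΛ
  obtain ⟨a, ha⟩ := hD h0
  have hρ := hT.not_dvd hpD
  obtain ⟨s, hs, hgap⟩ := hT.gap hΛ h0 ha
  obtain ⟨R, h, E, hR⟩ := hT.tail s hs
  have hgap := hgap R h E hR
  set θ : ℕ → Λ := fun j => ρ + D • B j with hθ
  have hD0 : 0 < D := by have := hT.two_le; omega
  have hθinj : Function.Injective θ := by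
    intro i j hij
    have h1 : D • B i = D • B j := add_left_cancel hij
    exact hpcs.mono.injective (nsmul_inj hD0 h1)
  have hθneg : ∀ j, ((θ j : Λ) : ℝ) < 0 := by
    intro j
    have := hT.neg j
    rw [hθ]
    simpa only [AddSubgroup.coe_add, AddSubgroup.coe_nsmul, nsmul_eq_mul] using this
  have hθp : ∀ j (η : Λ), θ j ≠ p • η := by
    intro j η h1
    obtain ⟨D', rfl⟩ := hpD
    refine hρ (η - D' • B j) ?_
    rw [smul_sub, smul_smul, ← h1, hθ]
    simp
  obtain ⟨J, hJ⟩ : ∃ J, ∀ j, J ≤ j → (R.coeff 0).coeff (θ j) = 0 := by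
    have hfin : (θ ⁻¹' ((R.coeff 0).coeff.support : Set Λ)).Finite :=
      (Finset.finite_toSet _).preimage hθinj.injOn
    obtain ⟨J, hJ⟩ := hfin.bddAbove
    refine ⟨J + 1, fun j hj => ?_⟩
    by_contra hne
    have : j ≤ J := hJ (by
      rw [Set.mem_preimage, Finset.mem_coe, Finsupp.mem_support_iff]; exact hne)
    omega
  set j := max J s with hj
  have hjJ : J ≤ j := le_max_left _ _
  have hjs : s ≤ j := le_max_right _ _
  set t := j + 1 with ht
  have hst : s ≤ t := by omega
  obtain ⟨R', h', E', hR'⟩ := hT.tail t (by omega)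
  set τ := Ys B c t - Ys B c s with hτ
  have hτge : Ge (B s : ℝ) τ := Ge.Ys_sub hpcs.mono c hst
  -- the two expressions of the value
  have hv1 : G.eval (Ys B c t) = R.eval τ + ((h.eval τ) ^ p - h.eval τ) + E.eval τ := by
    have h1 : G.eval (Ys B c t) = (Polynomial.taylor (Ys B c s) G).eval τ := by
      rw [taylor_eval, hτ, sub_add_cancel]
    rw [h1, hR.eq, eval_add, eval_add, eval_sub, eval_pow]
  have hv2 : G.eval (Ys B c t) =
      R'.coeff 0 + ((h'.coeff 0) ^ p - h'.coeff 0) + E'.coeff 0 := by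
    have h1 : G.eval (Ys B c t) = (Polynomial.taylor (Ys B c t) G).coeff 0 := by
      rw [taylor_coeff_zero]
    rw [h1, hR'.eq, Polynomial.coeff_add, Polynomial.coeff_add, Polynomial.coeff_sub]
    congr 3
    have h2 := coeff_poly_pow (p := p) h' 1 0
    rwa [pow_one, mul_zero] at h2
  set lam := (R.coeff D).coeff ρ with hlam
  -- main term
  have hmain : Ge 0 (R.eval τ - R.coeff 0 - AddMonoidAlgebra.single ρ lam * τ ^ D) := by
    have hDR : D ∈ Finset.Icc 1 R.natDegree := by
      rw [Finset.mem_Icc]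
      refine ⟨hD0, le_natDegree_of_ne_zero fun h0 => hR.mem ?_⟩
      rw [h0]; rfl
    have h1 : R.eval τ - R.coeff 0 - AddMonoidAlgebra.single ρ lam * τ ^ D =
        (R.coeff D - AddMonoidAlgebra.single ρ lam) * τ ^ D +
          ∑ l ∈ (Finset.Icc 1 R.natDegree).erase D, R.coeff l * τ ^ l := by
      rw [eval_eq_sum_range, Finset.sum_range_succ', pow_zero, mul_one]
      have h2 : ∑ l ∈ Finset.range R.natDegree, R.coeff (l + 1) * τ ^ (l + 1) =
          ∑ l ∈ Finset.Icc 1 R.natDegree, R.coeff l * τ ^ l := by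
        refine Finset.sum_nbij' (fun l => l + 1) (fun l => l - 1) ?_ ?_ ?_ ?_ ?_
        · intro l hl
          rw [Finset.mem_range] at hl
          rw [Finset.mem_Icc]; omega
        · intro l hl
          rw [Finset.mem_Icc] at hl
          rw [Finset.mem_range]; omega
        · intro l _; simp
        · intro l hl
          rw [Finset.mem_Icc] at hl
          omega
        · intro l _
          rfl
      rw [h2, ← Finset.add_sum_erase _ _ hDR]
      ring
    rw [h1]
    refine Ge.add ?_ (Ge.sum fun l hl => ?_)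
    · have h2 : Ge (-(D * (B s : ℝ))) (R.coeff D - AddMonoidAlgebra.single ρ lam) := by
        intro η hη
        by_cases hηρ : η = ρ
        · exfalso; apply hη
          rw [hηρ, AddMonoidAlgebra.coeff_sub, Finsupp.sub_apply, AddMonoidAlgebra.coeff_single,
            Finsupp.single_eq_same, sub_self]
        · rw [AddMonoidAlgebra.coeff_sub, Finsupp.sub_apply, AddMonoidAlgebra.coeff_single,
            Finsupp.single_eq_of_ne hηρ, sub_zero] at hη
          have := hgap D η hD0 hη (Or.inr hηρ)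
          linarith
      refine (h2.mul (hτge.pow D)).mono (le_of_eq ?_)
      ring
    · obtain ⟨hlD, hl⟩ := Finset.mem_erase.1 hl
      rw [Finset.mem_Icc] at hl
      have h2 : Ge (-(l * (B s : ℝ))) (R.coeff l) := by
        intro η hη
        have := hgap l η hl.1 hη (Or.inl hlD)
        linarith
      refine (h2.mul (hτge.pow l)).mono (le_of_eq ?_)
      ring
  have hE : Ge 0 (E.eval τ) := Ge.eval (β := (B s : ℝ)) (fun l => (hR.err l).mono (by linarith)) hτge
  have hE' : Ge 0 (E'.coeff 0) := (hR'.err 0).mono (by simp)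
  -- the element `x`
  set x := h.eval τ - h'.coeff 0 with hx
  have hxp : x ^ p = (h.eval τ) ^ p - (h'.coeff 0) ^ p := by
    have := charP_ga (k := k) (Λ := Λ) (p := p)
    have h1 := sub_pow_char_pow (p := p) (n := 1) (h.eval τ) (h'.coeff 0)
    rwa [pow_one] at h1
  obtain ⟨e, he, hxe⟩ : ∃ e, Ge 0 e ∧ x ^ p - x = R'.coeff 0 - R.coeff 0 -
      AddMonoidAlgebra.single ρ lam * τ ^ D + e := by
    refine ⟨E'.coeff 0 - E.eval τ -
      (R.eval τ - R.coeff 0 - AddMonoidAlgebra.single ρ lam * τ ^ D),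
      (hE'.sub hE).sub hmain, ?_⟩
    rw [hxp, hx]
    have h1 := hv1.symm.trans hv2
    have h2 : (h.eval τ) ^ p - (h'.coeff 0) ^ p - (h.eval τ - h'.coeff 0) =
        (R.eval τ + ((h.eval τ) ^ p - h.eval τ) + E.eval τ) -
        (R'.coeff 0 + ((h'.coeff 0) ^ p - h'.coeff 0) + E'.coeff 0) +
        (R'.coeff 0 + E'.coeff 0 - R.eval τ - E.eval τ) := by ring
    rw [h2, h1]
    ring
  obtain ⟨J₀, hJ₀⟩ := exists_coeff_eq_zero hp.out.two_le x (θ := θ j) fun h1 => by
    have := hθneg j
    rw [h1] at this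
    simp at this
  have hcl := class_wp (p := p) x (hθp j) J₀ (hJ₀ J₀ le_rfl)
  have hpos : ∀ i, (((p ^ i) • θ j : Λ) : ℝ) < 0 := by
    intro i
    rw [AddSubgroup.coe_nsmul, nsmul_eq_mul]
    have h1 : (0 : ℝ) < (p ^ i : ℕ) := by exact_mod_cast Nat.pow_pos hpp
    exact mul_neg_of_pos_of_neg h1 (hθneg j)
  -- coefficients of the reduced forms at multiples of `p`
  have hred : ∀ {s : ℕ} {F R h E : (AddMonoidAlgebra k Λ)[X]}, TailAt B p N D ρ s F R h E →
      ∀ i, 0 < i → (R.coeff 0).coeff ((p ^ i) • θ j) = 0 := by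
    intro s F R h E hR i hi
    by_contra hne
    have h1 : (p ^ i) • θ j = p • ((p ^ (i - 1)) • θ j) := by
      rw [smul_smul, ← pow_succ', Nat.sub_add_cancel hi]
    rw [h1] at hne
    have h2 := hR.red 0 _ (dvd_zero p) hne
    have h3 := hpos i
    rw [h1, AddSubgroup.coe_nsmul, nsmul_eq_mul] at h3
    simp only [Nat.cast_zero, zero_mul, add_zero] at h2
    linarith
  have ha0 : a ≠ 0 := by
    rintro rfl
    have := hT.two_le
    rw [pow_zero] at ha; omega
  have hmono : ∀ i, (AddMonoidAlgebra.single ρ lam * τ ^ D).coeff ((p ^ i) • θ j) =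
      if i = 0 then lam * c j ^ D else 0 := by
    intro i
    rw [hτ]
    conv_lhs => rw [ha]
    rw [coeff_lead_pow (p := p) B c ρ lam hst a]
    by_cases hi : i = 0
    · subst hi
      rw [if_pos rfl, Finset.sum_eq_single j]
      · rw [if_pos, ha]
        rw [pow_zero, one_smul, hθ, ha]
      · intro i _ hij
        rw [if_neg]
        intro h1
        rw [pow_zero, one_smul, ← ha] at h1
        exact hij (hθinj h1)
      · intro h1
        exact absurd (Finset.mem_Ico.2 ⟨hjs, by omega⟩) h1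
    · rw [if_neg hi]
      refine Finset.sum_eq_zero fun i' _ => if_neg fun h1 => ?_
      refine hρ ((p ^ (i - 1)) • θ j - (p ^ (a - 1)) • B i') ?_
      rw [smul_sub, smul_smul, smul_smul, ← pow_succ', ← pow_succ',
        Nat.sub_add_cancel (by omega), Nat.sub_add_cancel (by omega), ← h1]
      abel
  have hcoef : ∀ i, (x ^ p - x).coeff ((p ^ i) • θ j) = if i = 0 then -(lam * c j ^ D) else 0 := by
    intro i
    rw [hxe, AddMonoidAlgebra.coeff_add, Finsupp.add_apply, he.coeff_eq_zero (hpos i), add_zero,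
      AddMonoidAlgebra.coeff_sub, Finsupp.sub_apply, AddMonoidAlgebra.coeff_sub,
      Finsupp.sub_apply, hmono]
    by_cases hi : i = 0
    · subst hi
      rw [if_pos rfl, if_pos rfl, pow_zero, one_smul, hJ j hjJ]
      have h1 : (R'.coeff 0).coeff (θ j) = 0 := by
        refine (hR'.ge 0).coeff_eq_zero ?_
        have h2 : (B j : ℝ) < B t := by exact_mod_cast hpcs.mono (by omega : j < t)
        have h3 : (0 : ℝ) < D := by exact_mod_cast hD0
        rw [hθ]
        simp only [AddSubgroup.coe_add, AddSubgroup.coe_nsmul, nsmul_eq_mul, Nat.cast_zero,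
          zero_mul, sub_zero]
        nlinarith
      rw [h1]; ring
    · rw [if_neg hi, if_neg hi, hred hR i (by omega), hred hR' i (by omega)]
      ring
  rw [Finset.sum_eq_single 0] at hcl
  · rw [hcoef 0, if_pos rfl] at hcl
    have h1 := pow_eq_zero_iff (Nat.pow_pos hpp).ne' |>.1 hcl
    rw [neg_eq_zero] at h1
    exact mul_ne_zero hR.mem (pow_ne_zero _ (hpcs.ne j)) h1
  · intro i _ hi
    rw [hcoef i, if_neg hi, zero_pow (Nat.pow_pos hpp).ne']
  · intro h1
    exact absurd (Finset.mem_range.2 (Nat.succ_pos _)) h1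

end Pool.Agent.LU1T
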