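import Pool.Agent.Lib.LU1_h90.TKapMain

/-!
# Powers of `p` and the operators `W`
-/

set_option autoImplicit false

namespace Pool.Agent.LU1T

open AddMonoidAlgebra Polynomial Filter

variable {k : Type*} [Field k] {Λ : AddSubgroup ℝ} {p : ℕ} [hp : Fact p.Prime] [CharP k p]

omit hp in
theorem charP_ga : CharP (AddMonoidAlgebra k Λ) p :=
  charP_of_injective_algebraMap (algebraMap k (AddMonoidAlgebra k Λ)).injective p

omit hp in
theorem charP_gaX : CharP (AddMonoidAlgebra k Λ)[X] p := by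
  have := charP_ga (k := k) (Λ := Λ) (p := p)
  infer_instance

omit hp [CharP k p] in
/-- The sum of its monomials. -/
theorem sum_single (a : AddMonoidAlgebra k Λ) :
    a = ∑ θ ∈ a.coeff.support, AddMonoidAlgebra.single θ (a.coeff θ) :=
  (AddMonoidAlgebra.sum_coeff_single a).symm

theorem natCast_pow_char (n i : ℕ) :
    ((n : AddMonoidAlgebra k Λ)) ^ p ^ i = (n : AddMonoidAlgebra k Λ) := by
  have := charP_ga (k := k) (Λ := Λ) (p := p)
  rw [← iterateFrobenius_def, map_natCast]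

omit hp [CharP k p] in
theorem nsmul_inj {n : ℕ} (hn : 0 < n) {θ η : Λ} (h : n • θ = n • η) : θ = η := by
  have h1 := congrArg (fun x : Λ => (x : ℝ)) h
  simp only [AddSubgroup.coe_nsmul, nsmul_eq_mul] at h1
  have h2 : (n : ℝ) ≠ 0 := by exact_mod_cast hn.ne'
  exact Subtype.ext (mul_left_cancel₀ h2 h1)

theorem coeff_pow_char (a : AddMonoidAlgebra k Λ) (j : ℕ) (θ : Λ) :
    (a ^ p ^ j).coeff ((p ^ j) • θ) = (a.coeff θ) ^ p ^ j := by
  classical
  have hpj : 0 < p ^ j := Nat.pow_pos hp.out.pos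
  conv_lhs => rw [sum_single a, single_sum_pow, AddMonoidAlgebra.coeff_sum,
    Finsupp.finsetSum_apply]
  simp only [AddMonoidAlgebra.coeff_single, Finsupp.single_apply]
  by_cases h : a.coeff θ = 0
  · rw [h, zero_pow hpj.ne']
    refine Finset.sum_eq_zero fun η hη => if_neg fun h' => ?_
    rw [nsmul_inj hpj h'] at hη
    exact Finsupp.mem_support_iff.1 hη h
  · rw [Finset.sum_eq_single θ]
    · rw [if_pos rfl]
    · exact fun η _ hne => if_neg fun h' => hne (nsmul_inj hpj h')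
    · exact fun h' => absurd (Finsupp.mem_support_iff.2 h) h'

theorem exists_of_coeff_pow (a : AddMonoidAlgebra k Λ) (j : ℕ) {θ : Λ}
    (h : (a ^ p ^ j).coeff θ ≠ 0) : ∃ η : Λ, θ = (p ^ j) • η ∧ a.coeff η ≠ 0 := by
  classical
  rw [sum_single a, single_sum_pow, AddMonoidAlgebra.coeff_sum, Finsupp.finsetSum_apply] at h
  obtain ⟨η, hη, hη'⟩ := Finset.exists_ne_zero_of_sum_ne_zero h
  rw [AddMonoidAlgebra.coeff_single, Finsupp.single_apply] at hη'
  split_ifs at hη' with h1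
  · exact ⟨η, h1.symm, Finsupp.mem_support_iff.1 hη⟩
  · exact absurd rfl hη'

/-- Coefficients of `p ^ j`-th powers of polynomials. -/
theorem coeff_poly_pow (F : (AddMonoidAlgebra k Λ)[X]) (j n : ℕ) :
    (F ^ p ^ j).coeff (p ^ j * n) = (F.coeff n) ^ p ^ j := by
  have := charP_ga (k := k) (Λ := Λ) (p := p)
  have hpj : 0 < p ^ j := Nat.pow_pos hp.out.pos
  rw [← map_iterateFrobenius_expand p F j, Polynomial.coeff_map, mul_comm, coeff_expand_mul hpj,
    iterateFrobenius_def]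

theorem coeff_poly_pow_of_not_dvd (F : (AddMonoidAlgebra k Λ)[X]) {n : ℕ} (h : ¬ p ∣ n) :
    (F ^ p).coeff n = 0 := by
  have := charP_ga (k := k) (Λ := Λ) (p := p)
  have h1 := map_iterateFrobenius_expand p F 1
  rw [pow_one] at h1
  rw [← h1, Polynomial.coeff_map, coeff_expand hp.out.pos, if_neg h, map_zero]

/-- The operator `W m F = ∑ (coeff_{p^i m} F)^{p^{I-i}}`. -/
noncomputable def W (p I m : ℕ) (F : (AddMonoidAlgebra k Λ)[X]) : AddMonoidAlgebra k Λ :=
  ∑ i ∈ Finset.range (I + 1), (F.coeff (p ^ i * m)) ^ p ^ (I - i)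

variable (I m : ℕ)

theorem W_add (F G : (AddMonoidAlgebra k Λ)[X]) : W p I m (F + G) = W p I m F + W p I m G := by
  have := charP_ga (k := k) (Λ := Λ) (p := p)
  unfold W
  rw [← Finset.sum_add_distrib]
  refine Finset.sum_congr rfl fun i _ => ?_
  rw [Polynomial.coeff_add, add_pow_char_pow]

theorem W_sub (F G : (AddMonoidAlgebra k Λ)[X]) : W p I m (F - G) = W p I m F - W p I m G := by
  have h := W_add (p := p) I m (F - G) G
  rw [sub_add_cancel] at h
  rw [h, add_sub_cancel_right]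

theorem W_wp {h : (AddMonoidAlgebra k Λ)[X]} (hh : h.natDegree < p ^ I) (hm : ¬ p ∣ m) :
    W p I m (h ^ p - h) = 0 := by
  have hm0 : 0 < m := Nat.pos_of_ne_zero fun h0 => hm (h0 ▸ dvd_zero p)
  rw [W_sub, sub_eq_zero]
  unfold W
  rw [Finset.sum_range_succ', Finset.sum_range_succ]
  have h1 : (h ^ p).coeff (p ^ 0 * m) = 0 := coeff_poly_pow_of_not_dvd h (by simpa using hm)
  have h2 : h.coeff (p ^ I * m) = 0 := by
    refine coeff_eq_zero_of_natDegree_lt (lt_of_lt_of_le hh ?_)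
    exact Nat.le_mul_of_pos_right _ hm0
  rw [h1, h2, zero_pow (Nat.pow_pos hp.out.pos).ne', zero_pow (Nat.pow_pos hp.out.pos).ne']
  congr 1
  refine Finset.sum_congr rfl fun i hi => ?_
  rw [Finset.mem_range] at hi
  have h3 := coeff_poly_pow (p := p) h 1 (p ^ i * m)
  rw [pow_one] at h3
  rw [show p ^ (i + 1) * m = p * (p ^ i * m) by ring, h3, ← pow_mul, ← pow_succ',
    show I - (i + 1) + 1 = I - i by omega]

/-- The polynomial `∑ (G^[p^i m])^{p^{I-i}}`. -/
noncomputable def Qm (p I : ℕ) (G : (AddMonoidAlgebra k Λ)[X]) (m : ℕ) :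
    (AddMonoidAlgebra k Λ)[X] :=
  ∑ i ∈ Finset.range (I + 1), (hasseDeriv (p ^ i * m) G) ^ p ^ (I - i)

omit hp [CharP k p] in
theorem Qm_eval (G : (AddMonoidAlgebra k Λ)[X]) (x : AddMonoidAlgebra k Λ) :
    (Qm p I G m).eval x = W p I m (taylor x G) := by
  unfold Qm W
  rw [eval_finsetSum]
  refine Finset.sum_congr rfl fun i _ => ?_
  rw [eval_pow, taylor_coeff]

theorem hasse_Q1_eval (G : (AddMonoidAlgebra k Λ)[X]) (x : AddMonoidAlgebra k Λ) (hm : 1 ≤ m) :
    (hasseDeriv (p ^ I * (m - 1)) (Qm p I G 1)).eval x =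
      (m : AddMonoidAlgebra k Λ) * (Qm p I G m).eval x := by
  have := charP_ga (k := k) (Λ := Λ) (p := p)
  rw [← taylor_coeff, Qm_eval]
  unfold Qm W
  rw [map_sum, finsetSum_coeff, Finset.mul_sum]
  refine Finset.sum_congr rfl fun i hi => ?_
  rw [Finset.mem_range] at hi
  rw [taylor_pow]
  have h1 : p ^ I * (m - 1) = p ^ (I - i) * (p ^ i * (m - 1)) := by
    rw [← mul_assoc, ← pow_add, Nat.sub_add_cancel (by omega)]
  rw [h1, coeff_poly_pow, taylor_coeff, taylor_coeff]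
  have h2 := congrArg (fun F : (AddMonoidAlgebra k Λ)[X] →ₗ[AddMonoidAlgebra k Λ] _ => F G)
    (hasseDeriv_comp (R := AddMonoidAlgebra k Λ) (p ^ i * (m - 1)) (p ^ i * 1))
  simp only [LinearMap.comp_apply, LinearMap.smul_apply] at h2
  have h3 : p ^ i * (m - 1) + p ^ i * 1 = p ^ i * m := by
    rw [← mul_add, Nat.sub_add_cancel hm]
  rw [h2, h3, eval_smul, nsmul_eq_mul, mul_pow]
  congr 1
  -- `choose (p^i m) (p^i (m-1)) = m` in characteristic `p`
  have h4 : (((p ^ i * m).choose (p ^ i * (m - 1)) : ℕ) : AddMonoidAlgebra k Λ) = (m : ℕ) := by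
    have h5 : ((X + 1 : (AddMonoidAlgebra k Λ)[X]) ^ (p ^ i * m)).coeff (p ^ i * (m - 1)) =
        ((p ^ i * m).choose (p ^ i * (m - 1)) : AddMonoidAlgebra k Λ) := coeff_X_add_one_pow _ _ _
    rw [mul_comm (p ^ i) m, pow_mul, mul_comm m (p ^ i), coeff_poly_pow, coeff_X_add_one_pow] at h5
    rw [← h5, Nat.choose_symm hm, Nat.choose_one_right]
    exact natCast_pow_char m i
  rw [h4]
  exact natCast_pow_char m (I - i)

end Pool.Agent.LU1T
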